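import Pool.Agent.QSX.StmtsG

set_option autoImplicit false

/-! # Row CLE: the exponential and the class condition -/

namespace Pool.Agent.QSX.H10

open Matrix Finset

variable {S : Scale} {V : Type} {m : ℕ} {P : V → Fin m → ℝ} {B : Set V}

/-- constants are absorbed -/
theorem cls_absorb (K : ℝ) {g : ℕ → V → Matrix (Fin m) (Fin m) ℝ}
    (h : ∀ ε > (0 : ℝ), ∀ᶠ s in (S.ω : Filter ℕ), ∀ a ∈ B, ∀ i l, i < l →
      |g s a i l| ≤ K * Real.exp (S.R s * (P a i - P a l + ε))) : S.Cls P B g := by
  intro ε hε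
  filter_upwards [h (ε / 2) (by positivity), S.ev_R (2 / ε * Real.log (max K 1))] with s h1 h2
  intro a ha i l hil
  refine (h1 a ha i l hil).trans ?_
  have h3 : Real.log (max K 1) ≤ ε / 2 * S.R s := by
    have := mul_le_mul_of_nonneg_left h2 (by positivity : (0 : ℝ) ≤ ε / 2)
    calc Real.log (max K 1) = ε / 2 * (2 / ε * Real.log (max K 1)) := by field_simp
      _ ≤ _ := this
  have h4 : K ≤ Real.exp (ε / 2 * S.R s) := by
    have h5 : (0 : ℝ) < max K 1 := lt_of_lt_of_le one_pos (le_max_right _ _)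
    exact (le_max_left K 1).trans ((Real.log_le_iff_le_exp h5).1 h3)
  calc K * Real.exp (S.R s * (P a i - P a l + ε / 2))
      ≤ Real.exp (ε / 2 * S.R s) * Real.exp (S.R s * (P a i - P a l + ε / 2)) :=
        mul_le_mul_of_nonneg_right h4 (Real.exp_pos _).le
    _ = Real.exp (S.R s * (P a i - P a l + ε)) := by rw [← Real.exp_add]; ring_nf

/-- products of strictly upper triangular families -/
theorem cls_mul {x y : ℕ → V → Matrix (Fin m) (Fin m) ℝ} (hx : ∀ s a, SU (x s a))
    (hy : ∀ s a, SU (y s a)) (cx : S.Cls P B x) (cy : S.Cls P B y) :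
    S.Cls P B (fun s a => x s a * y s a) := by
  refine cls_absorb (m : ℝ) fun ε hε => ?_
  filter_upwards [cx (ε / 2) (by positivity), cy (ε / 2) (by positivity)] with s h1 h2
  intro a ha i l _
  rw [Matrix.mul_apply]
  refine (Finset.abs_sum_le_sum_abs _ _).trans ?_
  have key : ∀ k ∈ (Finset.univ : Finset (Fin m)), |x s a i k * y s a k l| ≤
      Real.exp (S.R s * (P a i - P a l + ε)) := by
    intro k _
    rcases le_or_gt k i with hk | hk
    · rw [hx s a i k hk, zero_mul, abs_zero]; exact (Real.exp_pos _).le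
    · rcases le_or_gt l k with hl | hl
      · rw [hy s a k l hl, mul_zero, abs_zero]; exact (Real.exp_pos _).le
      · rw [abs_mul]
        calc |x s a i k| * |y s a k l| ≤ Real.exp (S.R s * (P a i - P a k + ε / 2)) *
              Real.exp (S.R s * (P a k - P a l + ε / 2)) :=
              mul_le_mul (h1 a ha i k hk) (h2 a ha k l hl) (abs_nonneg _) (Real.exp_pos _).le
          _ = Real.exp (S.R s * (P a i - P a l + ε)) := by rw [← Real.exp_add]; ring_nf
  calc ∑ k, |x s a i k * y s a k l| ≤ ∑ _k : Fin m, Real.exp (S.R s * (P a i - P a l + ε)) :=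
        Finset.sum_le_sum key
    _ = (m : ℝ) * Real.exp (S.R s * (P a i - P a l + ε)) := by
        rw [Finset.sum_const, Finset.card_univ, Fintype.card_fin, nsmul_eq_mul]

theorem su_pow {R : Type} [CommRing R] {x : Matrix (Fin m) (Fin m) R} (hx : SU x) (k : ℕ) :
    SU (x ^ (k + 1)) := by
  induction k with
  | zero => rw [zero_add, pow_one]; exact hx
  | succ k ih => rw [pow_succ]; exact ih.mul hx

theorem cls_pow {x : ℕ → V → Matrix (Fin m) (Fin m) ℝ} (hx : ∀ s a, SU (x s a))
    (cx : S.Cls P B x) (k : ℕ) : S.Cls P B (fun s a => x s a ^ (k + 1)) := by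
  induction k with
  | zero =>
    have h : (fun s a => x s a ^ (0 + 1)) = x := by funext s a; rw [zero_add, pow_one]
    rw [h]; exact cx
  | succ k ih =>
    have h : (fun s a => x s a ^ (k + 1 + 1)) = fun s a => x s a ^ (k + 1) * x s a := by
      funext s a; rw [pow_succ]
    rw [h]; exact cls_mul (fun s a => su_pow (hx s a) k) hx ih cx

theorem cle : CleStmt := by
  intro S V m P B x hx cx
  refine cls_absorb ((m : ℝ) + 1) fun ε hε => ?_
  have hall : ∀ᶠ s in (S.ω : Filter ℕ), ∀ k ∈ range (m + 1), ∀ a ∈ B, ∀ i l, i < l →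
      |(x s a ^ k) i l| ≤ Real.exp (S.R s * (P a i - P a l + ε)) := by
    rw [Filter.eventually_all_finset]
    intro k _
    cases k with
    | zero =>
      refine Filter.Eventually.of_forall fun s a _ i l hil => ?_
      rw [pow_zero, Matrix.one_apply_ne hil.ne, abs_zero]
      exact (Real.exp_pos _).le
    | succ k => exact cls_pow hx cx k ε hε
  filter_upwards [hall] with s h1
  intro a ha i l hil
  rw [mexp, Matrix.sum_apply]
  refine (Finset.abs_sum_le_sum_abs _ _).trans ?_
  have key : ∀ k ∈ range (m + 1), |(((k.factorial : ℝ)⁻¹) • x s a ^ k) i l| ≤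
      Real.exp (S.R s * (P a i - P a l + ε)) := by
    intro k hk
    rw [Matrix.smul_apply, smul_eq_mul, abs_mul, abs_of_nonneg (by positivity)]
    have h2 : ((k.factorial : ℝ)⁻¹) ≤ 1 := by
      apply inv_le_one_of_one_le₀
      exact_mod_cast Nat.succ_le_of_lt (Nat.factorial_pos k)
    calc ((k.factorial : ℝ)⁻¹) * |(x s a ^ k) i l| ≤ 1 * |(x s a ^ k) i l| :=
          mul_le_mul_of_nonneg_right h2 (abs_nonneg _)
      _ = |(x s a ^ k) i l| := one_mul _
      _ ≤ _ := h1 k hk a ha i l hil
  calc ∑ k ∈ range (m + 1), |(((k.factorial : ℝ)⁻¹) • x s a ^ k) i l|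
      ≤ ∑ _k ∈ range (m + 1), Real.exp (S.R s * (P a i - P a l + ε)) := Finset.sum_le_sum key
    _ = ((m : ℝ) + 1) * Real.exp (S.R s * (P a i - P a l + ε)) := by
        rw [Finset.sum_const, Finset.card_range, nsmul_eq_mul]; push_cast; ring

end Pool.Agent.QSX.H10
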