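import Pool.Agent.QSX.StmtsA
import Pool.Agent.QSX.StmtsG

set_option autoImplicit false

/-! # Row GAA: reduction of the vertical flats -/

namespace Pool.Agent.QSX.H10

open Matrix Finset

theorem dual_zero {X : Dat} (hX : X.Split) (Ψ : Set hX.ι) : (0 : X.b) ∈ hX.dual Ψ := by
  intro ν _
  rw [map_zero]

theorem dual_cone {X : Dat} (hX : X.Split) (Ψ : Set hX.ι) :
    ∀ a ∈ hX.dual Ψ, ∀ c : ℝ, 0 ≤ c → c • a ∈ hX.dual Ψ := by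
  intro a ha c hc ν hν
  rw [map_smul, smul_eq_mul]
  exact mul_nonneg hc (ha ν hν)

theorem gaa (hLgm : LgmStmt) (hLgp : LgpStmt) (hGmx : GmxStmt) (hRdm : RdmStmt)
    (hRlg : RlgStmt) (hRnf : RnfStmt) (hNre : NreStmt) (hNrf : NrfStmt) : GaaStmt := by
  classical
  intro X Y hX V
  obtain ⟨G, hG⟩ := hLgp ℝ Y.m Y.n Y.su Y.lie
  obtain ⟨rMul, -, rConst, -, rZero⟩ := hRdm V.S Y.m
  let v : (Matrix (Fin X.m) (Fin X.m) ℝ)ˣ → (Matrix (Fin X.m) (Fin X.m) ℝ)ˣ → ℕ →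
      (Matrix (Fin Y.m) (Fin Y.m) ℝ)ˣ := fun n n' s => (V.ψ n s)⁻¹ * V.ψ n' s
  have hv : ∀ n ∈ hX.Gam, ∀ n' ∈ hX.Gam, ∀ s, ∃ y ∈ Y.n, v n n' s = ue y := by
    intro n hn n' hn' s
    rw [← hG]
    exact G.mul_mem (G.inv_mem ((hG _).2 (V.ψn n hn s))) ((hG _).2 (V.ψn n' hn' s))
  have hUU : ∀ n ∈ hX.Gam, ∀ n' ∈ hX.Gam, ∀ s,
      UU ((v n n' s : (Matrix (Fin Y.m) (Fin Y.m) ℝ)ˣ) : Matrix (Fin Y.m) (Fin Y.m) ℝ) := by
    intro n hn n' hn' s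
    obtain ⟨y, hy, e⟩ := hv n hn n' hn' s
    rw [e, ue_val (Y.su y hy)]
    exact ((hLgm ℝ Y.m).1 y (Y.su y hy)).1
  have hMd : ∀ n ∈ hX.Gam, ∀ n' ∈ hX.Gam, V.S.MdM (fun s =>
      ((v n n' s : (Matrix (Fin Y.m) (Fin Y.m) ℝ)ˣ) : Matrix (Fin Y.m) (Fin Y.m) ℝ)) := by
    intro n hn n' hn'
    obtain ⟨z, hz, e⟩ := (hGmx X hX).2 n hn n' hn'
    exact (hNre V.S X.b Y.m V.P (hX.dual Set.univ) (dual_zero hX _) (dual_cone hX _) _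
      (hUU n hn n' hn') (V.near n hn n' hn' Set.univ z hz e)).1
  let R : (Matrix (Fin X.m) (Fin X.m) ℝ)ˣ → (Matrix (Fin X.m) (Fin X.m) ℝ)ˣ →
      Matrix (Fin Y.m) (Fin Y.m) V.S.FF := fun n n' =>
    V.S.redM (fun s => ((v n n' s : (Matrix (Fin Y.m) (Fin Y.m) ℝ)ˣ) :
      Matrix (Fin Y.m) (Fin Y.m) ℝ))
  have hRmul : ∀ n ∈ hX.Gam, ∀ n' ∈ hX.Gam, ∀ n'' ∈ hX.Gam, R n n' * R n' n'' = R n n'' := by
    intro n hn n' hn' n'' hn''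
    have h1 := (rMul _ _ (hMd n hn n' hn') (hMd n' hn' n'' hn'')).2
    show V.S.redM _ * V.S.redM _ = V.S.redM _
    rw [← h1]
    congr 1
    funext s
    rw [← Units.val_mul]
    congr 1
    show ((V.ψ n s)⁻¹ * V.ψ n' s) * ((V.ψ n' s)⁻¹ * V.ψ n'' s) = (V.ψ n s)⁻¹ * V.ψ n'' s
    group
  have hRone : ∀ n, R n n = 1 := by
    intro n
    have h1 := (rConst 1).2
    rw [Matrix.map_one _ (map_zero _) (map_one _)] at h1
    rw [← h1]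
    show V.S.redM _ = V.S.redM _
    congr 1
    funext s
    show ((((V.ψ n s)⁻¹ * V.ψ n s : (Matrix (Fin Y.m) (Fin Y.m) ℝ)ˣ)) :
      Matrix (Fin Y.m) (Fin Y.m) ℝ) = 1
    rw [inv_mul_cancel, Units.val_one]
  have h1Γ : (1 : (Matrix (Fin X.m) (Fin X.m) ℝ)ˣ) ∈ hX.Gam := one_mem _
  let ψ' : (Matrix (Fin X.m) (Fin X.m) ℝ)ˣ → (Matrix (Fin Y.m) (Fin Y.m) V.S.FF)ˣ := fun n =>
    if h : n ∈ hX.Gam then
      ⟨R 1 n, R n 1, by rw [hRmul 1 h1Γ n h 1 h1Γ, hRone], by rw [hRmul n h 1 h1Γ n h, hRone]⟩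
    else 1
  have hψ : ∀ n ∈ hX.Gam, ∀ n' ∈ hX.Gam, ((ψ' n)⁻¹ * ψ' n').val = R n n' := by
    intro n hn n' hn'
    rw [Units.val_mul]
    simp only [ψ', dif_pos hn, dif_pos hn']
    exact hRmul n hn 1 h1Γ n' hn'
  refine ⟨⟨ψ', ?_, ?_, ?_⟩⟩
  · -- val
    intro n hn n' hn'
    have hm : ∀ s, mlog ((v n n' s : (Matrix (Fin Y.m) (Fin Y.m) ℝ)ˣ) :
        Matrix (Fin Y.m) (Fin Y.m) ℝ) ∈ Y.n ∧ mexp (mlog ((v n n' s :
        (Matrix (Fin Y.m) (Fin Y.m) ℝ)ˣ) : Matrix (Fin Y.m) (Fin Y.m) ℝ)) =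
        ((v n n' s : (Matrix (Fin Y.m) (Fin Y.m) ℝ)ˣ) : Matrix (Fin Y.m) (Fin Y.m) ℝ) := by
      intro s
      refine ⟨?_, ((hLgm ℝ Y.m).2 _ (hUU n hn n' hn' s)).2⟩
      obtain ⟨y, hy, e⟩ := hv n hn n' hn' s
      rw [e, ue_val (Y.su y hy), ((hLgm ℝ Y.m).1 y (Y.su y hy)).2]
      exact hy
    have h1 := (hRlg V.S Y.m _ (hMd n hn n' hn')).2
    have h2 := hRnf V.S Y _ (fun s => (hm s).1) h1.1
    have h3 := ((hRlg V.S Y.m _ h1.1).1).2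
    have hSU : SU (V.S.redM (fun s => mlog ((v n n' s : (Matrix (Fin Y.m) (Fin Y.m) ℝ)ˣ) :
        Matrix (Fin Y.m) (Fin Y.m) ℝ))) := by
      intro i j hij
      rw [rZero _ h1.1]
      have : (fun s => mlog ((v n n' s : (Matrix (Fin Y.m) (Fin Y.m) ℝ)ˣ) :
        Matrix (Fin Y.m) (Fin Y.m) ℝ) i j) = 0 := by
        funext s
        exact Y.su _ (hm s).1 i j hij
      rw [this]
      exact Scale.Sm.zero V.S
    refine ⟨_, h2, ?_⟩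
    apply Units.ext
    rw [hψ n hn n' hn', ue_val hSU, ← h3]
    show V.S.redM _ = V.S.redM _
    congr 1
    funext s
    exact (hm s).2.symm
  · -- supp
    intro n hn n' hn' Ψ z hz e i l hil h
    rw [hψ n hn n' hn'] at h
    exact (hNre V.S X.b Y.m V.P (hX.dual Ψ) (dual_zero hX _) (dual_cone hX _) _
      (hUU n hn n' hn') (V.near n hn n' hn' Ψ z hz e)).2 i l hil h
  · -- nondeg
    intro n hn l x hx
    have hn' : n * ue ((x : ℝ) • hX.e l) ∈ hX.Gam :=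
      hX.Gam.mul_mem hn (Subgroup.subset_closure ⟨l, x, rfl⟩)
    rw [hψ n hn _ hn']
    by_contra hcon
    push Not at hcon
    obtain ⟨a₀, ha₀⟩ := hX.pos
    obtain ⟨a, ha1, ha2⟩ : ∃ a : X.b, ‖a‖ ≤ 1 ∧ hX.rt l a < 0 := by
      refine ⟨-((1 + ‖a₀‖)⁻¹ • a₀), ?_, ?_⟩
      · rw [norm_neg, norm_smul, Real.norm_of_nonneg (by positivity)]
        rw [inv_mul_le_iff₀ (by positivity)]
        linarith
      · rw [map_neg, map_smul, smul_eq_mul]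
        have := ha₀ l
        have h2 : 0 < (1 + ‖a₀‖)⁻¹ * hX.rt l a₀ := by positivity
        linarith
    obtain ⟨t, ht0, ht1, hCl⟩ := hNrf V.S X.b Y.m V.P _ (hMd n hn _ hn') (by
      rintro i k hik ⟨a, ha⟩
      rw [← rZero _ (hMd n hn _ hn')]
      by_contra h0
      exact ha (hcon i k hik h0 a)) a
    refine V.far n hn l x hx (t • a) ?_ ?_ hCl
    · rw [norm_smul, Real.norm_of_nonneg ht0.le]
      calc t * ‖a‖ ≤ 1 * 1 := mul_le_mul ht1 ha1 (norm_nonneg _) zero_le_one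
        _ = 1 := one_mul 1
    · rw [map_smul, smul_eq_mul]
      exact mul_neg_of_pos_of_neg ht0 ha2

end Pool.Agent.QSX.H10
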