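import Pool.Agent.QSX.StmtsB

set_option autoImplicit false

/-! # Row TRF: the graded family over the real numbers -/

namespace Pool.Agent.QSX.H10

open Matrix Finset

theorem map_br {X : Dat} (hX : X.Split) {M N : Type} [AddCommGroup M] [Module ℝ M]
    [AddCommGroup N] [Module ℝ N] (φ : M →ₗ[ℝ] N) (C : hX.ι → M) (l l' : hX.ι) :
    φ (hX.br C l l') = hX.br (fun l => φ (C l)) l l' := by
  unfold Dat.Split.br
  rw [map_list_sum, List.map_map]
  congr 1
  refine List.map_congr_left fun t _ => ?_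
  simp only [Function.comp_apply, map_smul]

theorem trf (hTra : TraStmt) (hNfr : NfrStmt) : TrfStmt := by
  classical
  intro X Y hX S P hP κ C hC
  obtain ⟨h1, h2, h3, h4⟩ := hC
  have hN0 : ∀ l, ∃ (d : ℕ) (y : Fin d → Matrix (Fin Y.m) (Fin Y.m) ℝ) (c : Fin d → S.FF),
      (∀ r, y r ∈ Y.n) ∧ (∀ r i k, y r i k ≠ 0 → ∀ a : X.b, P a i - P a k =
        (κ (hX.comp l) • hX.rt l) a) ∧
      C l = ∑ r, c r • (y r).map (algebraMap ℝ S.FF) := by
    intro l
    exact hNfr X Y S.FF P hP (κ (hX.comp l) • hX.rt l) (C l) (h1 l) (fun i k h a => by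
      rw [LinearMap.smul_apply, smul_eq_mul]; exact h2 l i k h a)
  choose d y c hy hyw hCl using hN0
  let σ : Type := Σ l : hX.ι, Fin (d l)
  let c' : σ → S.FF := fun t => c t.1 t.2
  let M : hX.ι → Matrix (Fin Y.m) (Fin Y.m) (MvPolynomial σ ℝ) := fun l =>
    Matrix.of fun i k => ∑ r, MvPolynomial.C (y l r i k) * MvPolynomial.X (⟨l, r⟩ : σ)
  have hM : ∀ {B : Type} [CommRing B] [Algebra ℝ B] (x : σ → B) (l : hX.ι),
      (MvPolynomial.aeval (R := ℝ) x).mapMatrix (M l) =
        ∑ r, x ⟨l, r⟩ • (y l r).map (algebraMap ℝ B) := by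
    intro B _ _ x l
    ext i k
    rw [AlgHom.mapMatrix_apply, Matrix.map_apply, Matrix.sum_apply]
    simp only [M, Matrix.of_apply, map_sum, map_mul, MvPolynomial.aeval_X, MvPolynomial.aeval_C,
      Matrix.smul_apply, Matrix.map_apply, smul_eq_mul]
    exact Finset.sum_congr rfl fun r _ => mul_comm _ _
  have hMC : ∀ l, (MvPolynomial.aeval (R := ℝ) c').mapMatrix (M l) = C l := by
    intro l; rw [hM c' l, hCl l]
  let D : hX.ι → hX.ι → Matrix (Fin Y.m) (Fin Y.m) (MvPolynomial σ ℝ) := fun l l' =>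
    M l * M l' - M l' * M l - hX.br M l l'
  have hD : ∀ {B : Type} [CommRing B] [Algebra ℝ B] (x : σ → B) (l l' : hX.ι),
      (MvPolynomial.aeval (R := ℝ) x).mapMatrix (D l l') =
        (MvPolynomial.aeval (R := ℝ) x).mapMatrix (M l) *
          (MvPolynomial.aeval (R := ℝ) x).mapMatrix (M l') -
        (MvPolynomial.aeval (R := ℝ) x).mapMatrix (M l') *
          (MvPolynomial.aeval (R := ℝ) x).mapMatrix (M l) -
        hX.br (fun l => (MvPolynomial.aeval (R := ℝ) x).mapMatrix (M l)) l l' := by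
    intro B _ _ x l l'
    have e := map_br hX ((MvPolynomial.aeval (R := ℝ) x).mapMatrix :
      Matrix (Fin Y.m) (Fin Y.m) (MvPolynomial σ ℝ) →ₐ[ℝ] Matrix (Fin Y.m) (Fin Y.m) B).toLinearMap
      M l l'
    simp only [AlgHom.toLinearMap_apply] at e
    rw [← e]
    simp only [D, map_sub, map_mul]
  have hne : ∀ l, ∃ i k, C (hX.top (hX.comp l)) i k ≠ 0 := by
    intro l
    by_contra h
    push Not at h
    exact h4 l (by ext i k; rw [h i k, Matrix.zero_apply])
  choose ii kk hik using hne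
  let E : Finset (MvPolynomial σ ℝ) :=
    ((Finset.univ : Finset (hX.ι × hX.ι × Fin Y.m × Fin Y.m)).filter
      (fun t => t.1 ≠ t.2.1)).image (fun t => D t.1 t.2.1 t.2.2.1 t.2.2.2)
  let N : Finset (MvPolynomial σ ℝ) :=
    (Finset.univ : Finset hX.ι).image (fun l => M (hX.top (hX.comp l)) (ii l) (kk l))
  obtain ⟨x, hE, hN⟩ := hTra S σ c' E N (by
    intro p hp
    obtain ⟨t, ht, rfl⟩ := Finset.mem_image.1 hp
    have ht' : t.1 ≠ t.2.1 := (Finset.mem_filter.1 ht).2
    have e := hD c' t.1 t.2.1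
    simp only [hMC] at e
    rw [h3 _ _ ht', sub_self] at e
    have e2 := congrFun (congrFun e t.2.2.1) t.2.2.2
    rw [AlgHom.mapMatrix_apply, Matrix.map_apply, Matrix.zero_apply] at e2
    exact e2) (by
    intro p hp
    obtain ⟨l, _, rfl⟩ := Finset.mem_image.1 hp
    have e := congrFun (congrFun (hMC (hX.top (hX.comp l))) (ii l)) (kk l)
    rw [AlgHom.mapMatrix_apply, Matrix.map_apply] at e
    rw [e]
    exact hik l)
  have hev : ∀ p, MvPolynomial.aeval (R := ℝ) x p = MvPolynomial.eval x p := by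
    intro p; rw [MvPolynomial.aeval_eq_eval]
  refine ⟨fun l => (MvPolynomial.aeval (R := ℝ) x).mapMatrix (M l), ?_, ?_, ?_, ?_⟩
  · intro l
    show (MvPolynomial.aeval (R := ℝ) x).mapMatrix (M l) ∈ Y.nF ℝ
    rw [hM x l]
    refine Submodule.sum_mem _ fun r _ => Submodule.smul_mem _ _ ?_
    exact Submodule.subset_span ⟨y l r, hy l r, rfl⟩
  · intro l i k h a
    have e := congrFun (congrFun (hM x l) i) k
    have h' : (∑ r, x ⟨l, r⟩ • (y l r).map (algebraMap ℝ ℝ)) i k ≠ 0 := by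
      rw [← e]; exact h
    rw [Matrix.sum_apply] at h'
    obtain ⟨r, _, hr⟩ := Finset.exists_ne_zero_of_sum_ne_zero h'
    rw [Matrix.smul_apply, Matrix.map_apply, smul_eq_mul] at hr
    have hr' : y l r i k ≠ 0 := by
      intro h0
      apply hr
      rw [h0, map_zero, mul_zero]
    have := hyw l r i k hr' a
    rwa [LinearMap.smul_apply, smul_eq_mul] at this
  · intro l l' hl
    have e := hD x l l'
    have e0 : (MvPolynomial.aeval (R := ℝ) x).mapMatrix (D l l') = 0 := by
      ext i k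
      rw [AlgHom.mapMatrix_apply, Matrix.map_apply, Matrix.zero_apply, hev]
      exact hE _ (Finset.mem_image.2 ⟨(l, l', i, k),
        Finset.mem_filter.2 ⟨Finset.mem_univ _, hl⟩, rfl⟩)
    rw [e0] at e
    exact (sub_eq_zero.1 e.symm)
  · intro l h
    have h0 := hN _ (Finset.mem_image.2 ⟨l, Finset.mem_univ _, rfl⟩)
    apply h0
    have e := congrFun (congrFun h (ii l)) (kk l)
    change ((MvPolynomial.aeval (R := ℝ) x).mapMatrix (M (hX.top (hX.comp l)))) (ii l) (kk l) = 0
      at e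
    rw [AlgHom.mapMatrix_apply, Matrix.map_apply, hev] at e
    exact e

end Pool.Agent.QSX.H10
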