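import Pool.Agent.Helper10_QSX.BRK
import Pool.Agent.Helper10_QSX.CHD
import Pool.Agent.Helper10_QSX.CLE
import Pool.Agent.Helper10_QSX.GAA
import Pool.Agent.Helper10_QSX.TRF
import Pool.Agent.Helper11_QSX.INA
import Pool.Agent.Helper11_QSX.LOW
import Pool.Agent.Helper15_QSX.CHV
import Pool.Agent.Helper15_QSX.FSV
import Pool.Agent.Helper15_QSX.TRA
import Pool.Agent.Helper16_QSX.BRE
import Pool.Agent.Helper17_QSX.GMX
import Pool.Agent.Helper19_QSX.SEC
import Pool.Agent.Helper21_QSX.RNF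
import Pool.Agent.Helper22_QSX.ENT
import Pool.Agent.Helper24_QSX.CLG
import Pool.Agent.Helper24_QSX.PRS
import Pool.Agent.Helper25_QSX.DIF
import Pool.Agent.Helper25_QSX.SMP
import Pool.Agent.Helper27_QSX.ACM
import Pool.Agent.Helper27_QSX.PNF
import Pool.Agent.Helper27_QSX.SPN
import Pool.Agent.Helper28_QSX.ENQ
import Pool.Agent.Helper28_QSX.LGM
import Pool.Agent.Helper28_QSX.MCJ
import Pool.Agent.Helper2_QSX.CLM
import Pool.Agent.Helper2_QSX.PLN
import Pool.Agent.Helper31_QSX.CHC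
import Pool.Agent.Helper32_QSX.COF
import Pool.Agent.Helper32_QSX.EBN
import Pool.Agent.Helper32_QSX.MDX
import Pool.Agent.Helper34_QSX.NVS
import Pool.Agent.Helper36_QSX.EMB
import Pool.Agent.Helper36_QSX.NVL
import Pool.Agent.Helper37_QSX.PTH
import Pool.Agent.Helper39_QSX.INV
import Pool.Agent.Helper3_QSX.LGP
import Pool.Agent.Helper41_QSX.GAB
import Pool.Agent.Helper41_QSX.GAU
import Pool.Agent.Helper41_QSX.MIJ
import Pool.Agent.Helper41_QSX.NRF
import Pool.Agent.Helper41_QSX.PRT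
import Pool.Agent.Helper41_QSX.PTF
import Pool.Agent.Helper42_QSX.CXR
import Pool.Agent.Helper43_QSX.ERG
import Pool.Agent.Helper43_QSX.QCM
import Pool.Agent.Helper46_QSX.GRP
import Pool.Agent.Helper49_QSX.FCP
import Pool.Agent.Helper49_QSX.MEA
import Pool.Agent.Helper49_QSX.SEQ
import Pool.Agent.Helper49_QSX.SOM
import Pool.Agent.Helper50_QSX.ENU
import Pool.Agent.Helper51_QSX.CMR
import Pool.Agent.Helper59_QSX.RLG
import Pool.Agent.Helper60_QSX.EHM
import Pool.Agent.Helper60_QSX.FEX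
import Pool.Agent.Helper60_QSX.NSI
import Pool.Agent.Helper62_QSX.CGM
import Pool.Agent.Helper62_QSX.CHB
import Pool.Agent.Helper62_QSX.LUD
import Pool.Agent.Helper62_QSX.PDV
import Pool.Agent.Helper62_QSX.UTS
import Pool.Agent.Helper66_QSX.CHK
import Pool.Agent.Helper66_QSX.SLN
import Pool.Agent.Helper67_QSX.HVB
import Pool.Agent.Helper67_QSX.SPT
import Pool.Agent.Helper68_QSX.CNR
import Pool.Agent.Helper68_QSX.VRT
import Pool.Agent.Helper69_QSX.NIN
import Pool.Agent.Helper75_QSX.TYP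
import Pool.Agent.Helper76_QSX.CHO
import Pool.Agent.Helper76_QSX.DFN
import Pool.Agent.Helper77_QSX.EBD
import Pool.Agent.Helper77_QSX.FCM
import Pool.Agent.Helper77_QSX.NRE
import Pool.Agent.Helper7_QSX.CRL
import Pool.Agent.Helper80_QSX.NRM
import Pool.Agent.Helper81_QSX.CHA
import Pool.Agent.Helper81_QSX.CXE
import Pool.Agent.Helper81_QSX.ROO
import Pool.Agent.Helper83_QSX.ALE
import Pool.Agent.Helper83_QSX.ZER
import Pool.Agent.Helper85_QSX.ALG
import Pool.Agent.Helper86_QSX.GRD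
import Pool.Agent.Helper86_QSX.LEN
import Pool.Agent.Helper86_QSX.NFL
import Pool.Agent.Helper87_QSX.WAR
import Pool.Agent.Helper88_QSX.GNX
import Pool.Agent.Helper88_QSX.LMP
import Pool.Agent.Helper8_QSX.GGX
import Pool.Agent.Helper8_QSX.HIL
import Pool.Agent.Helper8_QSX.NFR
import Pool.Agent.Helper8_QSX.PMU
import Pool.Agent.Helper92_QSX.LMT
import Pool.Agent.Helper92_QSX.PRD
import Pool.Agent.Helper94_QSX.FLT
import Pool.Agent.Helper95_QSX.BCH
import Pool.Agent.Helper99_QSX.DEX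
import Pool.Agent.Helper99_QSX.RDM
import Pool.Agent.Helper9_QSX.DST

set_option autoImplicit false

/-! # Assembly of the rows of squad QSX -/

namespace Pool.Agent.QSX.Asm

open Pool.Agent.QSX

theorem a_lgm : LgmStmt := H28.lgm
theorem a_mcj : McjStmt := H28.mcj
theorem a_dex : DexStmt := H99.dex
theorem a_bch : BchStmt := H95.bch a_lgm a_dex
theorem a_nrm : NrmStmt := H80.nrm
theorem a_len : LenStmt := H86.len a_nrm
theorem a_grp : GrpStmt := H46.grp a_bch a_mcj
theorem a_mij : MijStmt := H41.mij a_lgm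
theorem a_pln : PlnStmt := H2.pln a_nrm a_len a_lgm
theorem a_ent : EntStmt := H22.ent a_len
theorem a_enu : EnuStmt := H50.enu a_len a_nrm
theorem a_low : LowStmt := H11.low a_pln
theorem a_dfn : DfnStmt := H76.dfn a_grp
theorem a_clg : ClgStmt := H24.clg
theorem a_cle : CleStmt := H10.cle
theorem a_pth : PthStmt := H37.pth
theorem a_prt : PrtStmt := H41.prt
theorem a_sec : SecStmt := H19.sec a_prt
theorem a_nvs : NvsStmt := H34.nvs a_bch a_lgm a_clg a_cle a_pth a_prt a_sec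
theorem a_nvl : NvlStmt := H36.nvl a_nvs
theorem a_cnr : CnrStmt := H68.cnr a_mcj a_pln
theorem a_clw : ClwStmt := H68.clw a_mcj a_low
theorem a_gnx : GnxStmt := H88.gnx a_bch a_lgm
theorem a_cgm : CgmStmt := H62.cgm
theorem a_vrt : VrtStmt := H68.vrt a_nvl a_clg a_ent a_enu a_cnr a_clw a_lgm
theorem a_lud : LudStmt := H62.lud
theorem a_hvb : HvbStmt := H67.hvb a_dfn a_pln
theorem a_lmp : LmpStmt := H88.lmp
theorem a_dif : DifStmt := H25.dif a_grp a_lud a_hvb a_cnr a_gnx a_mij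
theorem a_ggx : GgxStmt := H8.ggx a_gnx
theorem a_mdx : MdxStmt := H32.mdx
theorem a_fsv : FsvStmt := H15.fsv
theorem a_mea : MeaStmt := H49.mea
theorem a_uts : UtsStmt := H62.uts
theorem a_fcm : FcmStmt := H77.fcm
theorem a_fex : FexStmt := H60.fex
theorem a_seq : SeqStmt := H49.seq
theorem a_typ : TypStmt := H75.typ
theorem a_hil : HilStmt := H8.hil
theorem a_erg : ErgStmt := H43.erg
theorem a_nin : NinStmt := H69.nin
theorem a_flt : FltStmt := H94.flt a_grp a_mdx a_fsv a_mea a_uts a_fcm a_fex a_seq a_typ a_hil a_erg a_nin a_dif a_lmp a_hvb a_dfn a_len a_lud a_cgm a_ggx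
theorem a_rdm : RdmStmt := H99.rdm
theorem a_rlg : RlgStmt := H59.rlg a_rdm
theorem a_rnf : RnfStmt := H21.rnf
theorem a_nre : NreStmt := H77.nre a_rdm
theorem a_nrf : NrfStmt := H41.nrf
theorem a_lgp : LgpStmt := H3.lgp a_bch
theorem a_gmx : GmxStmt := H17.gmx a_lgp
theorem a_nfl : NflStmt := H86.nfl a_lgp
theorem a_ptf : PtfStmt := H41.ptf a_prt
theorem a_spt : SptStmt := H67.spt
theorem a_fcp : FcpStmt := H49.fcp a_spt
theorem a_gaa : GaaStmt := H10.gaa a_lgm a_lgp a_gmx a_rdm a_rlg a_rnf a_nre a_nrf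
theorem a_gab : GabStmt := H41.gab a_lgm a_spt a_fcp a_ptf a_nfl a_gmx
theorem a_gau : GauStmt := H41.gau a_gaa a_gab
theorem a_war : WarStmt := H87.war
theorem a_nsi : NsiStmt := H60.nsi a_war
theorem a_crl : CrlStmt := H7.crl a_nsi
theorem a_cmr : CmrStmt := H51.cmr a_crl
theorem a_roo : RooStmt := H81.roo a_lgm
theorem a_ina : InaStmt := H11.ina a_fcp
theorem a_inv : InvStmt := H39.inv a_ina
theorem a_cof : CofStmt := H32.cof
theorem a_brk : BrkStmt := H10.brk a_lgm a_nfl a_spt a_inv a_nsi a_cmr a_roo a_cof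
theorem a_pmu : PmuStmt := H8.pmu
theorem a_pnf : PnfStmt := H27.pnf a_prt
theorem a_grd : GrdStmt := H86.grd a_pmu a_pnf
theorem a_smp : SmpStmt := H25.smp
theorem a_zer : ZerStmt := H83.zer
theorem a_pdv : PdvStmt := H62.pdv
theorem a_lmt : LmtStmt := H92.lmt a_smp a_zer a_pdv
theorem a_tra : TraStmt := H15.tra a_lmt a_smp
theorem a_nfr : NfrStmt := H8.nfr a_prt
theorem a_trf : TrfStmt := H10.trf a_tra a_nfr
theorem a_bre : BreStmt := H16.bre a_cof
theorem a_clm : ClmStmt := H2.clm a_bre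
theorem a_ale : AleStmt := H83.ale a_bre
theorem a_alg : AlgStmt := H85.alg a_gau a_brk a_grd a_trf a_clm a_ale
theorem a_ebd : EbdStmt := H77.ebd
theorem a_ebn : EbnStmt := H32.ebn a_len
theorem a_ehm : EhmStmt := H60.ehm a_ebd a_dfn
theorem a_enq : EnqStmt := H28.enq
theorem a_emb : EmbStmt := H36.emb a_ehm a_enq a_pln
theorem a_prd : PrdStmt := H92.prd a_ebd a_ebn
theorem a_prs : PrsStmt := H24P.prs a_ebd
theorem a_sln : SlnStmt := H66.sln
theorem a_dst : DstStmt := H9.dst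
theorem a_cho : ChoStmt := H76.cho a_lgm a_mij
theorem a_acm : AcmStmt := H27.acm
theorem a_cha : ChaStmt := H81.cha
theorem a_chb : ChbStmt := H62.chb a_cha a_lgm
theorem a_chc : ChcStmt := H31.chc a_mcj a_bch a_lgm
theorem a_chk : ChkStmt := H66.chk a_bch a_lgm
theorem a_chd : ChdStmt := H10.chd a_chb a_chc a_chk a_lgm
theorem a_chv : ChvStmt := H15.chv a_chc a_chd
theorem a_spn : SpnStmt := H27S.spn
theorem a_som : SomStmt := H49.som
theorem a_qcm : QcmStmt := H43.qcm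
theorem a_cxe : CxeStmt := H81.cxe
theorem a_cxr : CxrStmt := H42.cxr

end Pool.Agent.QSX.Asm
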