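import Pool.Agent.QSX.StmtsA
import Pool.Agent.QSX.StmtsB
import Pool.Agent.QSX.StmtsG

set_option autoImplicit false

/-! # Row BRK: the brackets over the residue field -/

namespace Pool.Agent.QSX.H10

open Matrix Finset

theorem ue_zero' {R : Type} [CommRing R] [Algebra ℝ R] {m : ℕ} :
    ue (0 : Matrix (Fin m) (Fin m) R) = 1 := by
  apply Units.ext
  rw [ue_val SU.zero, mexp_zero]; rfl

theorem ue_pow' {R : Type} [CommRing R] [Algebra ℝ R] {m : ℕ} {e : Matrix (Fin m) (Fin m) R}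
    (he : SU e) (x : ℕ) : (ue e) ^ x = ue ((x : ℝ) • e) := by
  induction x with
  | zero => rw [pow_zero, Nat.cast_zero, zero_smul, ue_zero']
  | succ x ih =>
    rw [pow_succ, ih, Nat.cast_succ, ue_add' he, one_smul]

theorem brk (hLgm : LgmStmt) (hNfl : NflStmt) (hSpt : SptStmt) (hInv : InvStmt) (hNsi : NsiStmt)
    (hCmr : CmrStmt) (hRoo : RooStmt) (hCof : CofStmt) : BrkStmt := by
  intro X Y hX F _ _ P A
  have hI := hInv X Y hX F P A
  obtain ⟨nSU, -, -⟩ := hNfl Y F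
  have hu : ∀ (l : hX.ι) (x : ℚ), ue ((x : ℝ) • hX.e l) ∈ hX.Gam :=
    fun l x => Subgroup.subset_closure ⟨l, x, rfl⟩
  have hval : ∀ l, ∀ n ∈ hX.Gam, ∀ x : ℚ, ∃ y ∈ Y.nF F, A.rg.V l n x = ue y := by
    intro l n hn x
    exact A.val n hn _ (hX.Gam.mul_mem hn (hu l x))
  let C : hX.ι → Matrix (Fin Y.m) (Fin Y.m) F := fun l =>
    mlog ((A.rg.V l 1 1 : (Matrix (Fin Y.m) (Fin Y.m) F)ˣ) : Matrix (Fin Y.m) (Fin Y.m) F)
  have hC1 : ∀ l, C l ∈ Y.nF F ∧ A.rg.V l 1 1 = ue (C l) := by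
    intro l
    obtain ⟨y, hy, e⟩ := hval l 1 (one_mem _) 1
    have hs := nSU y hy
    have e1 : C l = y := by
      show mlog ((A.rg.V l 1 1 : (Matrix (Fin Y.m) (Fin Y.m) F)ˣ) :
        Matrix (Fin Y.m) (Fin Y.m) F) = y
      rw [e, ue_val hs]; exact ((hLgm F Y.m).1 y hs).2
    rw [e1]; exact ⟨hy, e⟩
  have hCS : ∀ l, SU (C l) := fun l => nSU _ (hC1 l).1
  have hUU : ∀ l, ∀ n ∈ hX.Gam, ∀ x : ℚ,
      UU ((A.rg.V l n x : (Matrix (Fin Y.m) (Fin Y.m) F)ˣ) : Matrix (Fin Y.m) (Fin Y.m) F) := by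
    intro l n hn x
    obtain ⟨y, hy, e⟩ := hval l n hn x
    rw [e, ue_val (nSU y hy)]
    exact ((hLgm F Y.m).1 y (nSU y hy)).1
  refine ⟨C, fun l => (hC1 l).1, ?_, ?_, ?_⟩
  · -- nonzero
    intro l h0
    have h1 := (hC1 l).2
    rw [h0, ue_zero'] at h1
    exact A.nondeg 1 (one_mem _) l 1 one_ne_zero h1
  · -- support
    intro l i k hik
    let r : Fin Y.m → Fin Y.m → Prop := fun i k =>
      ∃ κ : ℝ, 0 < κ ∧ ∀ a, P a i - P a k = κ * hX.rt l a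
    have htr : ∀ i j k, i < j → j < k → r i j → r j k → r i k := by
      rintro i j k _ _ ⟨κ, h1, h2⟩ ⟨κ', h3, h4⟩
      refine ⟨κ + κ', add_pos h1 h3, fun a => ?_⟩
      have := h2 a; have := h4 a
      rw [add_mul]; linarith
    have hSp : Sp r ((A.rg.V l 1 1 : (Matrix (Fin Y.m) (Fin Y.m) F)ˣ) :
        Matrix (Fin Y.m) (Fin Y.m) F) := by
      refine ⟨hUU l 1 (one_mem _) 1, fun i k hik h => ?_⟩
      obtain ⟨h1, a₁, h2⟩ := A.supp 1 (one_mem _) (1 * ue (((1 : ℚ) : ℝ) • hX.e l))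
        (hX.Gam.mul_mem (one_mem _) (hu l 1)) {l} (((1 : ℚ) : ℝ) • hX.e l)
        (Submodule.smul_mem _ _ (Submodule.subset_span ⟨l, rfl, rfl⟩)) rfl i k hik h
      obtain ⟨a₀, ha₀⟩ := hX.pos
      let w : X.b →ₗ[ℝ] ℝ :=
        { toFun := fun a => P a i - P a k
          map_add' := fun a b => by rw [map_add, Pi.add_apply, Pi.add_apply]; ring
          map_smul' := fun c a => by
            rw [map_smul, Pi.smul_apply, Pi.smul_apply, smul_eq_mul, smul_eq_mul,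
              RingHom.id_apply, smul_eq_mul]; ring }
      obtain ⟨κ, hκ, h3⟩ := fks (hX.rt l) w ⟨a₀, ha₀ l⟩
        (fun a ha => h1 a (by
          intro ν hν
          rw [Set.mem_singleton_iff] at hν
          rw [hν]; exact ha))
      have h4 : ∀ a, P a i - P a k = κ * hX.rt l a := h3
      refine ⟨κ, lt_of_le_of_ne hκ ?_, h4⟩
      intro h0
      apply h2
      rw [h4, ← h0, zero_mul]
    have hlt : i < k := by
      by_contra h
      exact hik (hCS l i k (not_lt.1 h))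
    exact ((hSpt F Y.m r htr).2.2 _ hSp).2 i k hlt hik
  · -- brackets
    intro l l' hl
    refine hCof F Y.m hX.ι (C l) (C l') C (hX.L l l') (hCS l) (hCS l') (fun t _ => hCS _)
      (fun t ht => ⟨(hX.L_rt l l' t ht).1, (hX.L_rt l l' t ht).2.1⟩) ?_
    intro x y
    have h1 := hCmr _ _ _ A.rg hI l l' hl x y
    rw [(hC1 l).2, (hC1 l').2, ue_pow' (hCS l), ue_pow' (hCS l')] at h1
    rw [h1]
    congr 1
    refine List.map_congr_left fun t ht => ?_
    by_cases hc : t.2.2.2 = 0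
    · have e1 : t.2.2.2 * (x : ℚ) ^ t.2.1 * (y : ℚ) ^ t.2.2.1 = 0 := by rw [hc]; ring
      have e2 : (t.2.2.2 : ℝ) * (x : ℝ) ^ t.2.1 * (y : ℝ) ^ t.2.2.1 = 0 := by
        rw [hc, Rat.cast_zero]; ring
      rw [e1, e2, zero_smul, ue_zero']
      show (A.χ 1)⁻¹ * A.χ (1 * ue (((0 : ℚ) : ℝ) • hX.e t.1)) = 1
      rw [Rat.cast_zero, zero_smul, ue_zero', mul_one, inv_mul_cancel]
    · have hmul : ∀ x y : ℚ, A.rg.V t.1 1 (x + y) = A.rg.V t.1 1 x * A.rg.V t.1 1 y := by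
        intro x y
        have h2 := hNsi _ _ _ A.rg hI l l' hl t ht hc (A.rg.u t.1 x) (hu t.1 x) y
        rw [← h2]
        show (A.χ 1)⁻¹ * A.χ (1 * A.rg.u t.1 (x + y)) =
          ((A.χ 1)⁻¹ * A.χ (1 * A.rg.u t.1 x)) *
            ((A.χ (A.rg.u t.1 x))⁻¹ * A.χ (A.rg.u t.1 x * A.rg.u t.1 y))
        rw [A.rg.add, one_mul, one_mul]
        group
      have h3 := hRoo F Y.m (fun x => A.rg.V t.1 1 x) hmul
        (fun x => hUU t.1 1 (one_mem _) x)
        (t.2.2.2 * (x : ℚ) ^ t.2.1 * (y : ℚ) ^ t.2.2.1)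
      rw [h3]
      push_cast
      rfl

end Pool.Agent.QSX.H10
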