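import Pool.Agent.Helper10_QSX.DDE
import Pool.Agent.QSX.StmtsC

set_option autoImplicit false

/-! # Every datum has a complexification -/

namespace Pool.Agent.QSX

open Matrix Finset Pool.Agent.QSX.H10

section cpx

variable {n : ℕ}

/-- the rotation by a right angle -/
def jj : Matrix (Fin 2) (Fin 2) ℝ := !![0, -1; 1, 0]

theorem jj_sq : jj * jj = -1 := by
  ext i j
  fin_cases i <;> fin_cases j <;> simp [jj, Matrix.mul_apply]

/-- multiplication by `i` on matrices of blocks -/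
noncomputable def Jd (n : ℕ) : Matrix (Fin n) (Fin n) (Matrix (Fin 2) (Fin 2) ℝ) :=
  diagonal fun _ => jj

theorem Jd_sq : Jd n * Jd n = -1 := by
  rw [Jd, diagonal_mul_diagonal, jj_sq]
  refine Matrix.ext fun i j => ?_
  by_cases h : i = j
  · subst h
    rw [diagonal_apply_eq, Matrix.neg_apply, Matrix.one_apply_eq]
  · rw [diagonal_apply_ne _ h, Matrix.neg_apply, Matrix.one_apply_ne h, neg_zero]

theorem Jd_sc (x : Matrix (Fin n) (Fin n) ℝ) : Jd n * sc 2 n x = sc 2 n x * Jd n := by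
  refine Matrix.ext fun i j => ?_
  rw [Jd, Matrix.diagonal_mul, Matrix.mul_diagonal, sc_apply]
  exact (Algebra.commutes (x i j) jj).symm

/-- `sc x + J sc y` -/
noncomputable def cx (x y : Matrix (Fin n) (Fin n) ℝ) :
    Matrix (Fin n) (Fin n) (Matrix (Fin 2) (Fin 2) ℝ) := sc 2 n x + Jd n * sc 2 n y

theorem cx_mul (x y x' y' : Matrix (Fin n) (Fin n) ℝ) :
    cx x y * cx x' y' = cx (x * x' - y * y') (x * y' + y * x') := by
  have h1 : Jd n * sc 2 n y * (Jd n * sc 2 n y') = - (sc 2 n y * sc 2 n y') := by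
    rw [mul_assoc, ← mul_assoc (sc 2 n y), ← Jd_sc y, mul_assoc (Jd n), ← mul_assoc (Jd n) (Jd n),
      Jd_sq, neg_one_mul]
  have h2 : sc 2 n x * (Jd n * sc 2 n y') = Jd n * (sc 2 n x * sc 2 n y') := by
    rw [← mul_assoc, ← Jd_sc x, mul_assoc]
  rw [cx, cx, cx, add_mul, mul_add, mul_add, h1, h2, map_sub, map_add, map_mul, map_mul, map_mul,
    map_mul, mul_add, mul_assoc (Jd n)]
  abel

theorem cx_add (x y x' y' : Matrix (Fin n) (Fin n) ℝ) :
    cx x y + cx x' y' = cx (x + x') (y + y') := by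
  rw [cx, cx, cx, map_add, map_add, mul_add]; abel

theorem cx_sub (x y x' y' : Matrix (Fin n) (Fin n) ℝ) :
    cx x y - cx x' y' = cx (x - x') (y - y') := by
  rw [cx, cx, cx, map_sub, map_sub, mul_sub]; abel

theorem cx_smul (r : ℝ) (x y : Matrix (Fin n) (Fin n) ℝ) : r • cx x y = cx (r • x) (r • y) := by
  rw [cx, cx, map_smul, map_smul, smul_add, Matrix.mul_smul]

theorem cx_zero : cx (0 : Matrix (Fin n) (Fin n) ℝ) 0 = 0 := by
  rw [cx, map_zero, mul_zero, add_zero]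

theorem dia_cx (c : Fin n → ℝ) : dia 2 c = cx (diagonal c) 0 := by
  rw [cx, map_zero, mul_zero, add_zero, sc_diagonal]

theorem Jd_cx : Jd n = cx 0 1 := by
  rw [cx, map_zero, map_one, mul_one, zero_add]

theorem cx_apply (x y : Matrix (Fin n) (Fin n) ℝ) (i j : Fin n) :
    cx x y i j = x i j • (1 : Matrix (Fin 2) (Fin 2) ℝ) + y i j • jj := by
  rw [cx, Matrix.add_apply, sc_apply, Jd, Matrix.diagonal_mul, sc_apply,
    Algebra.algebraMap_eq_smul_one, Algebra.algebraMap_eq_smul_one, Matrix.mul_smul, mul_one]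

theorem cx_inj {x y x' y' : Matrix (Fin n) (Fin n) ℝ} (h : cx x y = cx x' y') :
    x = x' ∧ y = y' := by
  have key : ∀ i j, x i j = x' i j ∧ y i j = y' i j := by
    intro i j
    have h1 := congrFun (congrFun h i) j
    rw [cx_apply, cx_apply] at h1
    have h2 := congrFun (congrFun h1 0) 0
    have h3 := congrFun (congrFun h1 1) 0
    simp [jj] at h2 h3
    exact ⟨h2, h3⟩
  exact ⟨by ext i j; exact (key i j).1, by ext i j; exact (key i j).2⟩

end cpx

/-- the diagonals of the complexification of a datum -/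
def Dat.bC (X : Dat) : Submodule ℝ (Fin (X.m * 2) → ℝ) where
  carrier := {c | ∃ d ∈ X.b, c = cst 2 X.m d}
  add_mem' := by
    rintro _ _ ⟨d, hd, rfl⟩ ⟨d', hd', rfl⟩
    exact ⟨d + d', X.b.add_mem hd hd', rfl⟩
  zero_mem' := ⟨0, X.b.zero_mem, rfl⟩
  smul_mem' := by
    rintro r _ ⟨d, hd, rfl⟩
    exact ⟨r • d, X.b.smul_mem r hd, rfl⟩

/-- the Lie algebra `n + i n` of the complexification of a datum -/
noncomputable def Dat.nC (X : Dat) : Submodule ℝ (Matrix (Fin (X.m * 2)) (Fin (X.m * 2)) ℝ) where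
  carrier := {z | ∃ x ∈ X.n, ∃ y ∈ X.n, z = blk 2 X.m (cx x y)}
  add_mem' := by
    rintro _ _ ⟨x, hx, y, hy, rfl⟩ ⟨x', hx', y', hy', rfl⟩
    exact ⟨_, X.n.add_mem hx hx', _, X.n.add_mem hy hy', by rw [← map_add, cx_add]⟩
  zero_mem' := ⟨0, X.n.zero_mem, 0, X.n.zero_mem, by rw [cx_zero, map_zero]⟩
  smul_mem' := by
    rintro r _ ⟨x, hx, y, hy, rfl⟩
    exact ⟨_, X.n.smul_mem r hx, _, X.n.smul_mem r hy, by rw [← map_smul, cx_smul]⟩

/-- the complexification of a datum -/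
noncomputable def Dat.C (X : Dat) : Dat where
  m := X.m * 2
  b := X.bC
  n := X.nC
  su := by
    rintro _ ⟨x, hx, y, hy, rfl⟩ p q h
    obtain ⟨⟨i, j⟩, rfl⟩ := finProdFinEquiv.surjective p
    obtain ⟨⟨i', j'⟩, rfl⟩ := finProdFinEquiv.surjective q
    rw [blk_apply, cx_apply, X.su x hx i i' (finProd_le h), X.su y hy i i' (finProd_le h),
      zero_smul, zero_smul, add_zero, Matrix.zero_apply]
  lie := by
    rintro _ ⟨x, hx, y, hy, rfl⟩ _ ⟨x', hx', y', hy', rfl⟩
    refine ⟨(x * x' - x' * x) - (y * y' - y' * y),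
      X.n.sub_mem (X.lie x hx x' hx') (X.lie y hy y' hy'),
      (x * y' - y' * x) + (y * x' - x' * y),
      X.n.add_mem (X.lie x hx y' hy') (X.lie y hy x' hx'), ?_⟩
    rw [← map_mul, ← map_mul, ← map_sub, cx_mul, cx_mul, cx_sub]
    congr 2 <;> abel
  stab := by
    rintro _ ⟨d, hd, rfl⟩ _ ⟨x, hx, y, hy, rfl⟩
    refine ⟨_, X.stab d hd x hx, _, X.stab d hd y hy, ?_⟩
    rw [← blk_dia, ← map_mul, ← map_mul, ← map_sub, dia_cx, cx_mul, cx_mul, cx_sub]
    congr 2
    · rw [zero_mul, mul_zero, sub_zero, sub_zero]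
    · rw [zero_mul, mul_zero, add_zero, zero_add]

/-- the complex structure of the complexification -/
noncomputable def Dat.cpxC (X : Dat) : X.C.Cpx where
  J := blk 2 X.m (Jd X.m)
  sq := by
    show blk 2 X.m (Jd X.m) * blk 2 X.m (Jd X.m) = -1
    rw [← map_mul, Jd_sq, map_neg, map_one]
  comm_n := by
    rintro _ ⟨x, hx, y, hy, rfl⟩
    show blk 2 X.m (Jd X.m) * blk 2 X.m (cx x y) = blk 2 X.m (cx x y) * blk 2 X.m (Jd X.m)
    rw [← map_mul, ← map_mul, Jd_cx, cx_mul, cx_mul]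
    congr 2
    · rw [zero_mul, mul_zero, one_mul, mul_one]
    · rw [zero_mul, mul_zero, one_mul, mul_one, zero_add, add_zero]
  comm_b := by
    rintro _ ⟨d, hd, rfl⟩
    show blk 2 X.m (Jd X.m) * diagonal (cst 2 X.m d) = diagonal (cst 2 X.m d) * blk 2 X.m (Jd X.m)
    rw [← blk_dia, ← map_mul, ← map_mul, Jd_cx, dia_cx, cx_mul, cx_mul]
    congr 2
    · rw [zero_mul, mul_zero, mul_zero, zero_mul]
    · rw [zero_mul, one_mul, mul_one, zero_add, add_zero]
  stab_n := by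
    rintro _ ⟨x, hx, y, hy, rfl⟩
    refine ⟨-y, X.n.neg_mem hy, x, hx, ?_⟩
    show blk 2 X.m (Jd X.m) * blk 2 X.m (cx x y) = _
    rw [← map_mul, Jd_cx, cx_mul]
    congr 2
    · rw [zero_mul, one_mul, zero_sub]
    · rw [zero_mul, one_mul, zero_add]

/-- the complexification is a complexification -/
noncomputable def Dat.cpxOfC (X : Dat) : X.C.CpxOf X X.cpxC where
  T := (blk 2 X.m).toLinearMap.comp ((sc 2 X.m).toLinearMap.comp X.n.subtype)
  P := { toFun := fun c => cst 2 X.m c.1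
         map_add' := fun _ _ => rfl
         map_smul' := fun _ _ => rfl }
  T_mem := by
    intro x
    refine ⟨x.1, x.2, 0, X.n.zero_mem, ?_⟩
    show blk 2 X.m (sc 2 X.m x.1) = _
    rw [cx, map_zero, mul_zero, add_zero]
  P_mem := fun a => ⟨a.1, a.2, rfl⟩
  P_inj := fun x y h => Subtype.ext (cst_inj (by norm_num) h)
  P_surj := by
    rintro _ ⟨d, hd, rfl⟩
    exact ⟨⟨d, hd⟩, rfl⟩
  T_lie := fun x y => sc_lie x.1 y.1
  T_ad := fun a x => sc_stab a.1 x.1
  dec := by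
    rintro _ ⟨x, hx, y, hy, rfl⟩
    refine ⟨⟨x, hx⟩, ⟨y, hy⟩, ?_⟩
    show blk 2 X.m (cx x y) = blk 2 X.m (sc 2 X.m x) + blk 2 X.m (Jd X.m) * blk 2 X.m (sc 2 X.m y)
    rw [← map_mul, ← map_add, cx]
  ind := by
    intro y z h
    have h1 : blk 2 X.m (cx y.1 z.1) = 0 := by
      rw [cx, map_add, map_mul]; exact h
    have h2 : cx y.1 z.1 = cx 0 0 := by
      rw [cx_zero]
      exact (blk 2 X.m).injective (by rw [h1, map_zero])
    obtain ⟨h3, h4⟩ := cx_inj h2
    exact ⟨Subtype.ext h3, Subtype.ext h4⟩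

end Pool.Agent.QSX
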