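import Pool.Agent.Helper10_QSX.DDF

set_option autoImplicit false

/-! # Algebraic embeddings between the data of `SL_n (𝔻)`, ranks -/

namespace Pool.Agent.QSX.H10

open Matrix Finset

variable {k n : ℕ}

/-- real matrices as matrices of scalar blocks -/
noncomputable def sc (k n : ℕ) :
    Matrix (Fin n) (Fin n) ℝ →ₐ[ℝ] Matrix (Fin n) (Fin n) (Matrix (Fin k) (Fin k) ℝ) :=
  (Algebra.ofId ℝ (Matrix (Fin k) (Fin k) ℝ)).mapMatrix

theorem sc_apply (x : Matrix (Fin n) (Fin n) ℝ) (i j : Fin n) :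
    sc k n x i j = algebraMap ℝ (Matrix (Fin k) (Fin k) ℝ) (x i j) := rfl

theorem sc_diagonal (c : Fin n → ℝ) : sc k n (diagonal c) = dia k c := by
  ext i j : 2
  rw [sc_apply, dia]
  by_cases h : i = j
  · subst h
    rw [diagonal_apply_eq, diagonal_apply_eq, Algebra.algebraMap_eq_smul_one]
  · rw [diagonal_apply_ne _ h, diagonal_apply_ne _ h, map_zero]

theorem sc_inj (hk : 0 < k) : Function.Injective (sc k n) := by
  intro x y h
  haveI : Nonempty (Fin k) := ⟨⟨0, hk⟩⟩
  ext i j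
  have h1 := congrFun (congrFun h i) j
  rw [sc_apply, sc_apply] at h1
  exact (algebraMap ℝ (Matrix (Fin k) (Fin k) ℝ)).injective h1

theorem cst_inj (hk : 0 < k) : Function.Injective (cst k n) := by
  intro c d h
  funext i
  have h1 := congrFun h (finProdFinEquiv (i, (⟨0, hk⟩ : Fin k)))
  rwa [cst_apply, cst_apply] at h1

theorem sc_lie (x y : Matrix (Fin n) (Fin n) ℝ) : blk k n (sc k n (x * y - y * x)) =
    blk k n (sc k n x) * blk k n (sc k n y) - blk k n (sc k n y) * blk k n (sc k n x) := by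
  rw [map_sub, map_sub, map_mul, map_mul, map_mul, map_mul]

theorem sc_stab (c : Fin n → ℝ) (x : Matrix (Fin n) (Fin n) ℝ) :
    blk k n (sc k n (diagonal c * x - x * diagonal c)) =
      diagonal (cst k n c) * blk k n (sc k n x) - blk k n (sc k n x) * diagonal (cst k n c) := by
  rw [map_sub, map_sub, map_mul, map_mul, map_mul, map_mul, sc_diagonal, blk_dia]

/-- `SL_n (ℝ)` in `SL_n (𝔻)` -/
theorem alg_sc (hk : 0 < k) (𝔻 : Subalgebra ℝ (Matrix (Fin k) (Fin k) ℝ)) (n : ℕ) :
    AlgEmb (datSL n) (datD n 𝔻) := by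
  refine ⟨(blk k n).toLinearMap.comp ((sc k n).toLinearMap.comp (datSL n).n.subtype),
    { toFun := fun c => cst k n c.1
      map_add' := fun _ _ => rfl
      map_smul' := fun _ _ => rfl }, ?_, ?_, ?_, ?_, ?_, ?_⟩
  · intro x
    refine ⟨sc k n x.1, ⟨fun i j => ?_, fun i j h => ?_⟩, rfl⟩
    · rw [sc_apply]; exact 𝔻.algebraMap_mem _
    · rw [sc_apply, x.2 i j h, map_zero]
  · intro a
    exact ⟨a.1, a.2, rfl⟩
  · intro x y h
    exact Subtype.ext (sc_inj hk ((blk k n).injective h))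
  · intro x y h
    exact Subtype.ext (cst_inj hk h)
  · intro x y
    exact sc_lie (k := k) (n := n) x.1 y.1
  · intro a x
    exact sc_stab (k := k) (n := n) a.1 x.1

/-- add zero blocks -/
noncomputable def pad (d : ℕ) (x : Matrix (Fin n) (Fin n) (Matrix (Fin k) (Fin k) ℝ)) :
    Matrix (Fin (n + d)) (Fin (n + d)) (Matrix (Fin k) (Fin k) ℝ) :=
  (Matrix.fromBlocks x 0 0 0).submatrix finSumFinEquiv.symm finSumFinEquiv.symm

theorem pad_cc (d : ℕ) (x : Matrix (Fin n) (Fin n) (Matrix (Fin k) (Fin k) ℝ)) (i j : Fin n) :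
    pad d x (Fin.castAdd d i) (Fin.castAdd d j) = x i j := by simp [pad]

theorem pad_cn (d : ℕ) (x : Matrix (Fin n) (Fin n) (Matrix (Fin k) (Fin k) ℝ)) (i : Fin n)
    (j : Fin d) : pad d x (Fin.castAdd d i) (Fin.natAdd n j) = 0 := by simp [pad]

theorem pad_nr (d : ℕ) (x : Matrix (Fin n) (Fin n) (Matrix (Fin k) (Fin k) ℝ)) (i : Fin d)
    (j : Fin (n + d)) : pad d x (Fin.natAdd n i) j = 0 := by
  refine Fin.addCases (fun j => ?_) (fun j => ?_) j <;> simp [pad]

theorem pad_mul (d : ℕ) (x y : Matrix (Fin n) (Fin n) (Matrix (Fin k) (Fin k) ℝ)) :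
    pad d (x * y) = pad d x * pad d y := by
  rw [pad, pad, pad, Matrix.submatrix_mul_equiv, Matrix.fromBlocks_multiply]
  simp

/-- `pad` as a linear map -/
noncomputable def padL (k n d : ℕ) : Matrix (Fin n) (Fin n) (Matrix (Fin k) (Fin k) ℝ) →ₗ[ℝ]
    Matrix (Fin (n + d)) (Fin (n + d)) (Matrix (Fin k) (Fin k) ℝ) where
  toFun := pad d
  map_add' x y := by
    ext i j : 2
    rw [Matrix.add_apply]
    refine Fin.addCases (fun i => ?_) (fun i => ?_) i
    · refine Fin.addCases (fun j => ?_) (fun j => ?_) j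
      · rw [pad_cc, pad_cc, pad_cc, Matrix.add_apply]
      · rw [pad_cn, pad_cn, pad_cn, add_zero]
    · rw [pad_nr, pad_nr, pad_nr, add_zero]
  map_smul' r x := by
    ext i j : 2
    rw [Matrix.smul_apply]
    refine Fin.addCases (fun i => ?_) (fun i => ?_) i
    · refine Fin.addCases (fun j => ?_) (fun j => ?_) j
      · rw [pad_cc, pad_cc, Matrix.smul_apply]; rfl
      · rw [pad_cn, pad_cn, smul_zero]
    · rw [pad_nr, pad_nr, smul_zero]

theorem padL_apply (d : ℕ) (x : Matrix (Fin n) (Fin n) (Matrix (Fin k) (Fin k) ℝ)) :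
    padL k n d x = pad d x := rfl

theorem pad_inj (d : ℕ) :
    Function.Injective (pad d : Matrix (Fin n) (Fin n) (Matrix (Fin k) (Fin k) ℝ) → _) := by
  intro x y h
  ext i j : 2
  rw [← pad_cc d x i j, h, pad_cc]

theorem pad_dia (d : ℕ) (c : Fin n → ℝ) :
    pad d (dia k c) = dia k (Fin.append c (0 : Fin d → ℝ)) := by
  ext i j : 2
  refine Fin.addCases (fun i => ?_) (fun i => ?_) i
  · refine Fin.addCases (fun j => ?_) (fun j => ?_) j
    · rw [pad_cc, dia, dia]
      by_cases h : i = j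
      · subst h
        rw [diagonal_apply_eq, diagonal_apply_eq, Fin.append_left]
      · rw [diagonal_apply_ne _ h, diagonal_apply_ne]
        exact fun h' => h (Fin.castAdd_injective n d h')
    · rw [pad_cn, dia, diagonal_apply_ne]
      intro h'
      have := congrArg Fin.val h'
      simp only [Fin.val_castAdd, Fin.val_natAdd] at this
      omega
  · rw [pad_nr, dia]
    by_cases h : Fin.natAdd n i = j
    · subst h
      rw [diagonal_apply_eq, Fin.append_right, Pi.zero_apply, zero_smul]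
    · rw [diagonal_apply_ne _ h]

/-- read off a block constant vector -/
def rd (hk : 0 < k) : (Fin (n * k) → ℝ) →ₗ[ℝ] (Fin n → ℝ) where
  toFun c i := c (finProdFinEquiv (i, ⟨0, hk⟩))
  map_add' _ _ := rfl
  map_smul' _ _ := rfl

theorem rd_cst (hk : 0 < k) (c : Fin n → ℝ) : rd hk (cst k n c) = c := by
  funext i
  exact cst_apply c i _

/-- append zeros -/
def apz (n d : ℕ) : (Fin n → ℝ) →ₗ[ℝ] (Fin (n + d) → ℝ) where
  toFun c := Fin.append c 0
  map_add' c c' := by
    funext i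
    refine Fin.addCases (fun i => ?_) (fun i => ?_) i
    · rw [Fin.append_left, Pi.add_apply, Pi.add_apply, Fin.append_left, Fin.append_left]
    · rw [Fin.append_right, Pi.add_apply, Fin.append_right, Fin.append_right, Pi.zero_apply,
        add_zero]
  map_smul' r c := by
    funext i
    refine Fin.addCases (fun i => ?_) (fun i => ?_) i
    · rw [Fin.append_left, Pi.smul_apply, Pi.smul_apply, Fin.append_left]; rfl
    · rw [Fin.append_right, Pi.smul_apply, Fin.append_right, Pi.zero_apply, smul_zero]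

theorem apz_apply (d : ℕ) (c : Fin n → ℝ) : apz n d c = Fin.append c 0 := rfl

/-- `cst` as a linear map -/
def cstL (k n : ℕ) : (Fin n → ℝ) →ₗ[ℝ] (Fin (n * k) → ℝ) where
  toFun := cst k n
  map_add' _ _ := rfl
  map_smul' _ _ := rfl

/-- `SL_n (𝔻)` in `SL_(n+d) (𝔻')` -/
theorem alg_pad (hk : 0 < k) {𝔻 𝔻' : Subalgebra ℝ (Matrix (Fin k) (Fin k) ℝ)} (h𝔻 : 𝔻 ≤ 𝔻')
    (n d : ℕ) : AlgEmb (datD n 𝔻) (datD (n + d) 𝔻') := by
  have hs : ∀ x : Matrix (Fin n) (Fin n) (Matrix (Fin k) (Fin k) ℝ),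
      (blk k n).symm (blk k n x) = x := fun x => (blk k n).symm_apply_apply x
  refine ⟨(blk k (n + d)).toLinearMap.comp ((padL k n d).comp
    ((blk k n).symm.toLinearMap.comp (datD n 𝔻).n.subtype)),
    (cstL k (n + d)).comp ((apz n d).comp ((rd hk).comp (datD n 𝔻).b.subtype)),
    ?_, ?_, ?_, ?_, ?_, ?_⟩
  · rintro ⟨_, x, hx, rfl⟩
    refine ⟨pad d x, ⟨fun i j => ?_, fun i j h => ?_⟩, ?_⟩
    · refine Fin.addCases (fun i => ?_) (fun i => ?_) i
      · refine Fin.addCases (fun j => ?_) (fun j => ?_) j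
        · rw [pad_cc]; exact h𝔻 (hx.1 i j)
        · rw [pad_cn]; exact 𝔻'.zero_mem
      · rw [pad_nr]; exact 𝔻'.zero_mem
    · revert h
      refine Fin.addCases (fun i => ?_) (fun i => ?_) i
      · refine Fin.addCases (fun j => ?_) (fun j => ?_) j
        · intro h
          rw [pad_cc]
          refine hx.2 i j ?_
          rw [Fin.le_def] at h ⊢
          simpa using h
        · intro _; rw [pad_cn]
      · intro _; rw [pad_nr]
    · show blk k (n + d) (pad d ((blk k n).symm (blk k n x))) = _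
      rw [hs]
  · rintro ⟨_, c, hc, rfl⟩
    refine ⟨Fin.append c 0, ?_, ?_⟩
    · rw [Fin.sum_univ_add]
      simp only [Fin.append_left, Fin.append_right, Pi.zero_apply, Finset.sum_const_zero, add_zero]
      exact hc
    · show cst k (n + d) (Fin.append (rd hk (cst k n c)) 0) = _
      rw [rd_cst]
  · rintro ⟨_, x, hx, rfl⟩ ⟨_, y, hy, rfl⟩ h
    have h1 : pad d ((blk k n).symm (blk k n x)) = pad d ((blk k n).symm (blk k n y)) :=
      (blk k (n + d)).injective h
    rw [hs, hs] at h1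
    rw [Subtype.mk.injEq, pad_inj d h1]
  · rintro ⟨_, c, hc, rfl⟩ ⟨_, c', hc', rfl⟩ h
    have h1 : Fin.append (rd hk (cst k n c)) (0 : Fin d → ℝ) =
      Fin.append (rd hk (cst k n c')) 0 := cst_inj hk h
    rw [rd_cst, rd_cst] at h1
    have h2 : c = c' := by
      funext i
      rw [← Fin.append_left c (0 : Fin d → ℝ) i, h1, Fin.append_left]
    rw [Subtype.mk.injEq, h2]
  · rintro ⟨_, x, hx, rfl⟩ ⟨_, y, hy, rfl⟩
    show blk k (n + d) (pad d ((blk k n).symm (blk k n x * blk k n y - blk k n y * blk k n x))) =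
      blk k (n + d) (pad d ((blk k n).symm (blk k n x))) *
        blk k (n + d) (pad d ((blk k n).symm (blk k n y))) -
      blk k (n + d) (pad d ((blk k n).symm (blk k n y))) *
        blk k (n + d) (pad d ((blk k n).symm (blk k n x)))
    rw [← map_mul, ← map_mul, ← map_sub, hs, hs, hs, ← map_mul, ← map_mul, ← map_sub,
      ← pad_mul, ← pad_mul, ← padL_apply, ← padL_apply, ← padL_apply, map_sub]
  · rintro ⟨_, c, hc, rfl⟩ ⟨_, x, hx, rfl⟩
    show blk k (n + d) (pad d ((blk k n).symm (diagonal (cst k n c) * blk k n x -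
        blk k n x * diagonal (cst k n c)))) =
      diagonal (cst k (n + d) (Fin.append (rd hk (cst k n c)) 0)) *
        blk k (n + d) (pad d ((blk k n).symm (blk k n x))) -
      blk k (n + d) (pad d ((blk k n).symm (blk k n x))) *
        diagonal (cst k (n + d) (Fin.append (rd hk (cst k n c)) 0))
    rw [rd_cst, ← blk_dia, ← blk_dia, ← map_mul, ← map_mul, ← map_sub, hs, hs, ← map_mul,
      ← map_mul, ← map_sub, ← pad_dia, ← pad_mul, ← pad_mul, ← padL_apply, ← padL_apply,
      ← padL_apply, map_sub]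

/-- the rank does not decrease -/
theorem alg_rank {X Y : Dat} (h : AlgEmb X Y) :
    Module.finrank ℝ X.b ≤ Module.finrank ℝ Y.b := by
  obtain ⟨_, P, _, hP, _, hPi, _, _⟩ := h
  exact LinearMap.finrank_le_finrank_of_injective (f := P.codRestrict Y.b hP)
    (fun x y h => hPi (congrArg Subtype.val h))

theorem rank_SL (n : ℕ) : Module.finrank ℝ (datSL (n + 1)).b = n := by
  let φ : (Fin (n + 1) → ℝ) →ₗ[ℝ] ℝ :=
    { toFun := fun c => ∑ i, c i
      map_add' := fun c d => by simp [Finset.sum_add_distrib]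
      map_smul' := fun r c => by simp [Finset.mul_sum] }
  have h1 : (datSL (n + 1)).b = LinearMap.ker φ := rfl
  have h2 := LinearMap.finrank_range_add_finrank_ker φ
  have h3 : LinearMap.range φ = ⊤ := by
    rw [LinearMap.range_eq_top]
    intro r
    refine ⟨Pi.single 0 r, ?_⟩
    show ∑ i, (Pi.single 0 r : Fin (n + 1) → ℝ) i = r
    rw [Finset.sum_eq_single 0]
    · exact Pi.single_eq_same _ _
    · intro i _ hi
      exact Pi.single_eq_of_ne hi _
    · intro h
      exact absurd (Finset.mem_univ _) h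
  rw [h3, finrank_top, Module.finrank_self, Module.finrank_fin_fun] at h2
  have h4 : Module.finrank ℝ (datSL (n + 1)).b = Module.finrank ℝ (LinearMap.ker φ) := rfl
  rw [h4]
  omega

theorem rank_D (hk : 0 < k) (𝔻 : Subalgebra ℝ (Matrix (Fin k) (Fin k) ℝ)) (n : ℕ) :
    Module.finrank ℝ (datD (n + 1) 𝔻).b ≤ n := by
  refine le_trans ?_ (rank_SL n).le
  refine LinearMap.finrank_le_finrank_of_injective
    (f := ((rd hk).comp (datD (n + 1) 𝔻).b.subtype).codRestrict (datSL (n + 1)).b ?_) ?_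
  · rintro ⟨_, c, hc, rfl⟩
    show ∑ i, rd hk (cst k (n + 1) c) i = 0
    rw [rd_cst]; exact hc
  · rintro ⟨_, c, hc, rfl⟩ ⟨_, c', hc', rfl⟩ h
    have h1 : rd hk (cst k (n + 1) c) = rd hk (cst k (n + 1) c') := congrArg Subtype.val h
    rw [rd_cst, rd_cst] at h1
    rw [Subtype.mk.injEq, h1]

/-- an algebraic embedding `SL_n (ℝ) → SL_m (𝔻)` forces `n ≤ m` -/
theorem le_of_alg (hk : 0 < k) {𝔻 : Subalgebra ℝ (Matrix (Fin k) (Fin k) ℝ)} {n m : ℕ}
    (hn : 2 ≤ n) (h : AlgEmb (datSL n) (datD m 𝔻)) : n ≤ m := by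
  obtain ⟨n, rfl⟩ : ∃ n', n = n' + 1 := ⟨n - 1, by omega⟩
  have h1 := alg_rank h
  rw [rank_SL] at h1
  rcases Nat.eq_zero_or_pos m with h0 | h0
  · exfalso
    subst h0
    have h2 : Module.finrank ℝ (datD 0 𝔻).b ≤ 0 := by
      refine le_trans (Submodule.finrank_le _) ?_
      show Module.finrank ℝ (Fin (0 * k) → ℝ) ≤ 0
      rw [Module.finrank_fin_fun, zero_mul]
    omega
  · obtain ⟨m, rfl⟩ : ∃ m', m = m' + 1 := ⟨m - 1, by omega⟩
    have h2 := rank_D hk 𝔻 m
    omega

end Pool.Agent.QSX.H10
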