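import Pool.Agent.QSX.StmtsF

set_option autoImplicit false

/-! # The data of `SL_n (𝔻)`, `𝔻` a real algebra of matrices -/

namespace Pool.Agent.QSX

open Matrix Finset

section blocks

variable {k n : ℕ}

/-- a matrix of blocks as a matrix (the rows and columns `(i, j)` at the place `j + k * i`) -/
noncomputable def blk (k n : ℕ) :
    Matrix (Fin n) (Fin n) (Matrix (Fin k) (Fin k) ℝ) ≃ₐ[ℝ] Matrix (Fin (n * k)) (Fin (n * k)) ℝ :=
  (Matrix.compAlgEquiv (Fin n) (Fin k) ℝ ℝ).trans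
    (Matrix.reindexAlgEquiv ℝ ℝ finProdFinEquiv)

theorem blk_apply (x : Matrix (Fin n) (Fin n) (Matrix (Fin k) (Fin k) ℝ)) (i i' : Fin n)
    (j j' : Fin k) :
    blk k n x (finProdFinEquiv (i, j)) (finProdFinEquiv (i', j')) = x i i' j j' := by
  show Matrix.reindex finProdFinEquiv finProdFinEquiv
    (Matrix.comp (Fin n) (Fin n) (Fin k) (Fin k) ℝ x)
    (finProdFinEquiv (i, j)) (finProdFinEquiv (i', j')) = x i i' j j'
  rw [Matrix.reindex_apply, Matrix.submatrix_apply, Equiv.symm_apply_apply,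
    Equiv.symm_apply_apply]
  rfl

theorem blk_ext {x y : Matrix (Fin (n * k)) (Fin (n * k)) ℝ}
    (h : ∀ i i' j j', x (finProdFinEquiv (i, j)) (finProdFinEquiv (i', j')) =
      y (finProdFinEquiv (i, j)) (finProdFinEquiv (i', j'))) : x = y := by
  ext p q
  obtain ⟨⟨i, j⟩, rfl⟩ := finProdFinEquiv.surjective p
  obtain ⟨⟨i', j'⟩, rfl⟩ := finProdFinEquiv.surjective q
  exact h i i' j j'

/-- the vector which is constant on the blocks -/
def cst (k n : ℕ) (c : Fin n → ℝ) : Fin (n * k) → ℝ := fun p => c (finProdFinEquiv.symm p).1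

theorem cst_apply (c : Fin n → ℝ) (i : Fin n) (j : Fin k) :
    cst k n c (finProdFinEquiv (i, j)) = c i := by
  rw [cst, Equiv.symm_apply_apply]

/-- the diagonal matrix of scalar blocks -/
noncomputable def dia (k : ℕ) {n : ℕ} (c : Fin n → ℝ) :
    Matrix (Fin n) (Fin n) (Matrix (Fin k) (Fin k) ℝ) :=
  diagonal fun i => c i • (1 : Matrix (Fin k) (Fin k) ℝ)

theorem blk_dia (c : Fin n → ℝ) : blk k n (dia k c) = diagonal (cst k n c) := by
  apply blk_ext
  intro i i' j j'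
  rw [blk_apply, dia]
  by_cases h : i = i'
  · subst h
    rw [diagonal_apply_eq, Matrix.smul_apply, smul_eq_mul]
    by_cases h' : j = j'
    · subst h'
      rw [Matrix.one_apply_eq, diagonal_apply_eq, cst_apply, mul_one]
    · rw [Matrix.one_apply_ne h', diagonal_apply_ne, mul_zero]
      intro h2
      exact h' (Prod.ext_iff.1 (finProdFinEquiv.injective h2)).2
  · rw [diagonal_apply_ne _ h, diagonal_apply_ne, Matrix.zero_apply]
    intro h2
    exact h (Prod.ext_iff.1 (finProdFinEquiv.injective h2)).1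

theorem finProd_le {i i' : Fin n} {j j' : Fin k}
    (h : finProdFinEquiv (i', j') ≤ finProdFinEquiv (i, j)) : i' ≤ i := by
  by_contra hc
  rw [not_le, Fin.lt_def] at hc
  rw [Fin.le_def] at h
  simp only [finProdFinEquiv_apply_val] at h
  have h1 : k * ((i : ℕ) + 1) ≤ k * (i' : ℕ) := Nat.mul_le_mul_left k hc
  have h2 := j.2
  rw [Nat.mul_add, Nat.mul_one] at h1
  omega

/-- strictly upper triangular matrices of blocks with entries in `𝔻` -/
def UD (n : ℕ) {k : ℕ} (𝔻 : Subalgebra ℝ (Matrix (Fin k) (Fin k) ℝ)) :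
    Submodule ℝ (Matrix (Fin n) (Fin n) (Matrix (Fin k) (Fin k) ℝ)) where
  carrier := {x | (∀ i j, x i j ∈ 𝔻) ∧ ∀ i j, j ≤ i → x i j = 0}
  add_mem' := by
    intro x y hx hy
    refine ⟨fun i j => ?_, fun i j h => ?_⟩
    · rw [Matrix.add_apply]; exact 𝔻.add_mem (hx.1 i j) (hy.1 i j)
    · rw [Matrix.add_apply, hx.2 i j h, hy.2 i j h, add_zero]
  zero_mem' := ⟨fun _ _ => 𝔻.zero_mem, fun _ _ _ => rfl⟩
  smul_mem' := by
    intro r x hx
    refine ⟨fun i j => ?_, fun i j h => ?_⟩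
    · rw [Matrix.smul_apply]; exact 𝔻.smul_mem (hx.1 i j) r
    · rw [Matrix.smul_apply, hx.2 i j h, smul_zero]

theorem UD_mul {𝔻 : Subalgebra ℝ (Matrix (Fin k) (Fin k) ℝ)}
    {x y : Matrix (Fin n) (Fin n) (Matrix (Fin k) (Fin k) ℝ)} (hx : x ∈ UD n 𝔻) (hy : y ∈ UD n 𝔻) :
    x * y ∈ UD n 𝔻 := by
  refine ⟨fun i j => ?_, fun i j h => ?_⟩
  · rw [Matrix.mul_apply]
    exact 𝔻.sum_mem fun l _ => 𝔻.mul_mem (hx.1 i l) (hy.1 l j)
  · rw [Matrix.mul_apply]
    refine Finset.sum_eq_zero fun l _ => ?_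
    rcases le_or_gt l i with hl | hl
    · rw [hx.2 i l hl, zero_mul]
    · rw [hy.2 l j (h.trans hl.le), mul_zero]

theorem UD_dia {𝔻 : Subalgebra ℝ (Matrix (Fin k) (Fin k) ℝ)} (c : Fin n → ℝ)
    {x : Matrix (Fin n) (Fin n) (Matrix (Fin k) (Fin k) ℝ)} (hx : x ∈ UD n 𝔻) :
    dia k c * x - x * dia k c ∈ UD n 𝔻 := by
  have e : ∀ i j, (dia k c * x - x * dia k c) i j = (c i - c j) • x i j := by
    intro i j
    rw [Matrix.sub_apply, dia, Matrix.diagonal_mul, Matrix.mul_diagonal, Matrix.smul_mul,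
      Matrix.mul_smul, Matrix.one_mul, Matrix.mul_one, sub_smul]
  refine ⟨fun i j => ?_, fun i j h => ?_⟩
  · rw [e]; exact 𝔻.smul_mem (hx.1 i j) _
  · rw [e, hx.2 i j h, smul_zero]

end blocks

/-- vectors of sum zero, constant on the blocks -/
def bD (n k : ℕ) : Submodule ℝ (Fin (n * k) → ℝ) where
  carrier := {c | ∃ d : Fin n → ℝ, ∑ i, d i = 0 ∧ c = cst k n d}
  add_mem' := by
    rintro _ _ ⟨d, hd, rfl⟩ ⟨d', hd', rfl⟩
    refine ⟨d + d', ?_, rfl⟩
    simp only [Pi.add_apply]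
    rw [Finset.sum_add_distrib, hd, hd', add_zero]
  zero_mem' := ⟨0, Finset.sum_const_zero, rfl⟩
  smul_mem' := by
    rintro r _ ⟨d, hd, rfl⟩
    refine ⟨r • d, ?_, rfl⟩
    simp only [Pi.smul_apply, smul_eq_mul]
    rw [← Finset.mul_sum, hd, mul_zero]

/-- strictly upper triangular matrices of blocks in `𝔻`, as real matrices -/
noncomputable def nD (n : ℕ) {k : ℕ} (𝔻 : Subalgebra ℝ (Matrix (Fin k) (Fin k) ℝ)) :
    Submodule ℝ (Matrix (Fin (n * k)) (Fin (n * k)) ℝ) where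
  carrier := {z | ∃ x ∈ UD n 𝔻, z = blk k n x}
  add_mem' := by
    rintro _ _ ⟨x, hx, rfl⟩ ⟨y, hy, rfl⟩
    exact ⟨_, (UD n 𝔻).add_mem hx hy, (map_add _ _ _).symm⟩
  zero_mem' := ⟨0, (UD n 𝔻).zero_mem, (map_zero _).symm⟩
  smul_mem' := by
    rintro r _ ⟨x, hx, rfl⟩
    exact ⟨_, (UD n 𝔻).smul_mem r hx, (map_smul _ _ _).symm⟩

/-- **The datum of `SL_n (𝔻)`**, `𝔻` a real algebra of `k × k` matrices containing `1` (for instance
the real numbers, `k = 1`, the complex numbers, `k = 2`, the quaternions, `k = 4`): strictly upper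
triangular `n × n` matrices of blocks in `𝔻`; diagonals constant on the blocks, of sum zero. -/
noncomputable def datD (n : ℕ) {k : ℕ} (𝔻 : Subalgebra ℝ (Matrix (Fin k) (Fin k) ℝ)) : Dat where
  m := n * k
  b := bD n k
  n := nD n 𝔻
  su := by
    rintro _ ⟨x, hx, rfl⟩ p q h
    obtain ⟨⟨i, j⟩, rfl⟩ := finProdFinEquiv.surjective p
    obtain ⟨⟨i', j'⟩, rfl⟩ := finProdFinEquiv.surjective q
    rw [blk_apply, hx.2 i i' (finProd_le h), Matrix.zero_apply]
  lie := by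
    rintro _ ⟨x, hx, rfl⟩ _ ⟨y, hy, rfl⟩
    exact ⟨_, (UD n 𝔻).sub_mem (UD_mul hx hy) (UD_mul hy hx), by
      rw [map_sub, map_mul, map_mul]⟩
  stab := by
    rintro _ ⟨d, _, rfl⟩ _ ⟨x, hx, rfl⟩
    exact ⟨_, UD_dia d hx, by rw [map_sub, map_mul, map_mul, blk_dia]⟩

end Pool.Agent.QSX
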