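import Pool.Agent.QSX.StmtsW
import Pool.Agent.QSX.StmtsB
import Pool.Agent.QSX.StmtsE

set_option autoImplicit false

/-! # The main theorem from the blocks -/

namespace Pool.Agent.QSX

/-- **FIN** the main theorem: a split space embeds quasi-isometrically in `Y × E` if and only if it
embeds quasi-isometrically in `Y`, if and only if it embeds algebraically in `Y`. -/
def FinStmt : Prop :=
  ∀ X Y : Dat, Nonempty X.Split →
    ((∃ (E : Type) (_ : NormedAddCommGroup E) (_ : InnerProductSpace ℝ E)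
        (f : X.Pt → Y.Pt × E), QIE X.dist (pdist Y E) f) ↔ AlgEmb X Y) ∧
    ((∃ f : X.Pt → Y.Pt, QIE X.dist Y.dist f) ↔ AlgEmb X Y)

namespace H10

/-- a map to `Y` is a map to `Y × E` -/
theorem qie_pair (hLen : LenStmt) {X Y : Dat} {f : X.Pt → Y.Pt} (hf : QIE X.dist Y.dist f)
    (E : Type) [NormedAddCommGroup E] : QIE X.dist (pdist Y E) (fun p => (f p, (0 : E))) := by
  obtain ⟨L, C, hL, hC, h⟩ := hf
  refine ⟨L, C, hL, hC, fun p q => ?_⟩
  have hd : pdist Y E (f p, 0) (f q, 0) = Y.dist (f p) (f q) := by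
    have h0 : 0 ≤ Y.dist (f p) (f q) :=
      (hLen Y.m ((Y.mat (f p))⁻¹ * Y.mat (f q)) 1).1
    rw [pdist, sub_self, norm_zero, zero_pow two_ne_zero, add_zero, Real.sqrt_sq h0]
  show X.dist p q / L - C ≤ pdist Y E (f p, 0) (f q, 0) ∧
    pdist Y E (f p, 0) (f q, 0) ≤ L * X.dist p q + C
  rw [hd]
  exact h p q

theorem fin_of (hLen : LenStmt) (hFlt : FltStmt) (hVrt : VrtStmt) (hAlg : AlgStmt)
    (hEmb : EmbStmt) : FinStmt := by
  intro X Y ⟨hX⟩
  have key : ∀ (E : Type) [NormedAddCommGroup E] [InnerProductSpace ℝ E] (f : X.Pt → Y.Pt × E),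
      QIE X.dist (pdist Y E) f → AlgEmb X Y := by
    intro E _ _ f hf
    exact hAlg X Y hX (hVrt X Y hX (hFlt X Y hX E f hf))
  refine ⟨⟨?_, ?_⟩, ?_, ?_⟩
  · rintro ⟨E, i1, i2, f, hf⟩
    exact key E f hf
  · intro h
    obtain ⟨f, hf⟩ := (hEmb X Y h).2 ℝ
    exact ⟨ℝ, inferInstance, inferInstance, f, hf⟩
  · rintro ⟨f, hf⟩
    exact key ℝ _ (qie_pair hLen hf ℝ)
  · intro h
    exact (hEmb X Y h).1

end H10

end Pool.Agent.QSX
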