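import Pool.Agent.Helper10_QSX.FIN
import Pool.Agent.Helper10_QSX.CEX

set_option autoImplicit false

/-! # Domains which are not split -/

namespace Pool.Agent.QSX.H10

open Matrix Finset

theorem alg_refl (X : Dat) : AlgEmb X X := by
  refine ⟨X.n.subtype, X.b.subtype, fun x => x.2, fun a => a.2, Subtype.val_injective,
    Subtype.val_injective, fun _ _ => rfl, fun _ _ => rfl⟩

/-- part (1) -/
theorem nsd_sub (hFin : FinStmt) (hChv : ChvStmt) (hEmb : EmbStmt) (hQcm : QcmStmt)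
    (X X₀ Y : Dat) (h0 : Nonempty X₀.RSplit) (h1 : AlgEmb X₀ X)
    (h2 : ∃ (E : Type) (_ : NormedAddCommGroup E) (_ : InnerProductSpace ℝ E)
      (f : X.Pt → Y.Pt × E), QIE X.dist (pdist Y E) f) : AlgEmb X₀ Y := by
  obtain ⟨E, i1, i2, f, hf⟩ := h2
  obtain ⟨g, hg⟩ := (hEmb X₀ X h1).1
  exact ((hFin X₀ Y (hChv X₀ h0)).1).1 ⟨E, i1, i2, fun x => f (g x), hQcm _ _ _ _ _ _ _ _ hg hf⟩

/-- part (2) -/
theorem nsd_cpx (hFin : FinStmt) (hChv : ChvStmt) (hEmb : EmbStmt) (hQcm : QcmStmt)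
    (hCxe : CxeStmt) (hAcm : AcmStmt) (hLen : LenStmt)
    (X X₀ Y : Dat) (h0 : Nonempty X₀.RSplit) (h1 : AlgEmb X₀ X) (h2 : AlgEmb X X₀.C)
    (h3 : Nonempty Y.Cpx) :
    ((∃ (E : Type) (_ : NormedAddCommGroup E) (_ : InnerProductSpace ℝ E)
      (f : X.Pt → Y.Pt × E), QIE X.dist (pdist Y E) f) ↔ AlgEmb X Y) ∧
    ((∃ f : X.Pt → Y.Pt, QIE X.dist Y.dist f) ↔ AlgEmb X Y) := by
  have key : ∀ (E : Type) [NormedAddCommGroup E] [InnerProductSpace ℝ E] (f : X.Pt → Y.Pt × E),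
      QIE X.dist (pdist Y E) f → AlgEmb X Y := by
    intro E i1 i2 f hf
    have h4 := nsd_sub hFin hChv hEmb hQcm X X₀ Y h0 h1 ⟨E, i1, i2, f, hf⟩
    exact hAcm X X₀.C Y h2 (hCxe X₀.C X₀ Y X₀.cpxC ⟨X₀.cpxOfC⟩ (hChv X₀ h0) h3 h4)
  refine ⟨⟨?_, ?_⟩, ?_, ?_⟩
  · rintro ⟨E, i1, i2, f, hf⟩
    exact key E f hf
  · intro h
    obtain ⟨f, hf⟩ := (hEmb X Y h).2 ℝ
    exact ⟨ℝ, inferInstance, inferInstance, f, hf⟩
  · rintro ⟨f, hf⟩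
    exact key ℝ _ (qie_pair hLen hf ℝ)
  · intro h
    exact (hEmb X Y h).1

/-- part (3) -/
theorem nsd_D (hFin : FinStmt) (hChv : ChvStmt) (hEmb : EmbStmt) (hQcm : QcmStmt)
    (hLen : LenStmt) (hRsl : ∀ k : ℕ, 2 ≤ k → Nonempty (datSL k).RSplit)
    (k : ℕ) (hk : 0 < k) (𝔻 𝔻' : Subalgebra ℝ (Matrix (Fin k) (Fin k) ℝ)) (h𝔻 : 𝔻 ≤ 𝔻')
    (n m : ℕ) (hn : 2 ≤ n) :
    ((∃ (E : Type) (_ : NormedAddCommGroup E) (_ : InnerProductSpace ℝ E)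
      (f : (datD n 𝔻).Pt → (datD m 𝔻').Pt × E), QIE (datD n 𝔻).dist (pdist (datD m 𝔻') E) f) ↔
        n ≤ m) ∧
    ((∃ f : (datD n 𝔻).Pt → (datD m 𝔻').Pt, QIE (datD n 𝔻).dist (datD m 𝔻').dist f) ↔
      n ≤ m) := by
  have key : ∀ (E : Type) [NormedAddCommGroup E] [InnerProductSpace ℝ E]
      (f : (datD n 𝔻).Pt → (datD m 𝔻').Pt × E),
      QIE (datD n 𝔻).dist (pdist (datD m 𝔻') E) f → n ≤ m := by
    intro E i1 i2 f hf
    exact le_of_alg hk hn (nsd_sub hFin hChv hEmb hQcm (datD n 𝔻) (datSL n) (datD m 𝔻')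
      (hRsl n hn) (alg_sc hk 𝔻 n) ⟨E, i1, i2, f, hf⟩)
  have key2 : n ≤ m → AlgEmb (datD n 𝔻) (datD m 𝔻') := by
    intro h
    obtain ⟨d, rfl⟩ := Nat.exists_eq_add_of_le h
    exact alg_pad hk h𝔻 n d
  refine ⟨⟨?_, ?_⟩, ?_, ?_⟩
  · rintro ⟨E, i1, i2, f, hf⟩
    exact key E f hf
  · intro h
    obtain ⟨f, hf⟩ := (hEmb _ _ (key2 h)).2 ℝ
    exact ⟨ℝ, inferInstance, inferInstance, f, hf⟩
  · rintro ⟨f, hf⟩
    exact key ℝ _ (qie_pair hLen hf ℝ)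
  · intro h
    exact (hEmb _ _ (key2 h)).1

/-- part (4): chains of data -/
theorem nsd_chain (hFin : FinStmt) (hChv : ChvStmt) (hEmb : EmbStmt) (hQcm : QcmStmt)
    (hAcm : AcmStmt) (hLen : LenStmt) (X : ℕ → Dat) (h1 : ∀ n, AlgEmb (X n) (X (n + 1)))
    (h2 : ∀ n, ∃ X₀ : Dat, Nonempty X₀.RSplit ∧ AlgEmb X₀ (X n) ∧
      Module.finrank ℝ X₀.b = Module.finrank ℝ (X n).b)
    (h3 : StrictMono fun n => Module.finrank ℝ (X n).b) (n m : ℕ) :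
    ((∃ (E : Type) (_ : NormedAddCommGroup E) (_ : InnerProductSpace ℝ E)
      (f : (X n).Pt → (X m).Pt × E), QIE (X n).dist (pdist (X m) E) f) ↔ n ≤ m) ∧
    ((∃ f : (X n).Pt → (X m).Pt, QIE (X n).dist (X m).dist f) ↔ n ≤ m) := by
  have key : ∀ (E : Type) [NormedAddCommGroup E] [InnerProductSpace ℝ E]
      (f : (X n).Pt → (X m).Pt × E), QIE (X n).dist (pdist (X m) E) f → n ≤ m := by
    intro E i1 i2 f hf
    obtain ⟨X₀, a1, a2, a3⟩ := h2 n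
    have h4 := alg_rank (nsd_sub hFin hChv hEmb hQcm (X n) X₀ (X m) a1 a2 ⟨E, i1, i2, f, hf⟩)
    rw [a3] at h4
    exact h3.le_iff_le.1 h4
  have key2 : n ≤ m → AlgEmb (X n) (X m) := by
    intro h
    obtain ⟨d, rfl⟩ := Nat.exists_eq_add_of_le h
    clear h key
    induction d with
    | zero => exact alg_refl _
    | succ d ih => exact hAcm _ _ _ ih (h1 (n + d))
  refine ⟨⟨?_, ?_⟩, ?_, ?_⟩
  · rintro ⟨E, i1, i2, f, hf⟩
    exact key E f hf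
  · intro h
    obtain ⟨f, hf⟩ := (hEmb _ _ (key2 h)).2 ℝ
    exact ⟨ℝ, inferInstance, inferInstance, f, hf⟩
  · rintro ⟨f, hf⟩
    exact key ℝ _ (qie_pair hLen hf ℝ)
  · intro h
    exact (hEmb _ _ (key2 h)).1

end Pool.Agent.QSX.H10
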