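import Pool.Agent.QSX.StmtsF

set_option autoImplicit false

/-! # Compact forms of the definitions of split data and of algebraic embeddings -/

namespace Pool.Agent.QSX

open Matrix Finset

/-- the bracket `x y - y x` -/
def lieb {m : ℕ} (x y : Matrix (Fin m) (Fin m) ℝ) : Matrix (Fin m) (Fin m) ℝ := x * y - y * x

/-- An algebraic embedding of `X` in `Y`: linear maps `T`, `P`, injective on `n_X` and on `b_X`, which
map `n_X` in `n_Y` and `b_X` in `b_Y` and respect the brackets of `n_X` and the actions of `b_X`, `b_Y`. -/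
def Emb (X Y : Dat) : Prop :=
  ∃ (T : Matrix (Fin X.m) (Fin X.m) ℝ →ₗ[ℝ] Matrix (Fin Y.m) (Fin Y.m) ℝ)
    (P : (Fin X.m → ℝ) →ₗ[ℝ] (Fin Y.m → ℝ)),
    (∀ x ∈ X.n, T x ∈ Y.n ∧ (T x = 0 → x = 0)) ∧ (∀ a ∈ X.b, P a ∈ Y.b ∧ (P a = 0 → a = 0)) ∧
    (∀ x ∈ X.n, ∀ y ∈ X.n, T (lieb x y) = lieb (T x) (T y)) ∧
    (∀ a ∈ X.b, ∀ x ∈ X.n, T (lieb (diagonal a) x) = lieb (diagonal (P a)) (T x))

/-- **Split data**: `n` has a basis `e` of rational matrices which are root vectors (`rt l` is the
root of `e l`, a linear functional on `b`); the roots are positive at a common element of `b`, separate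
the points of `b`, and are pairwise not proportional; `J` is the set of components, `top j` the top
root of the component `j` (a root vector which is not a top root does not commute with all the
others), and `b` is the direct sum of the parts of the components (`scal`: the components can be
rescaled independently). -/
structure Dat.Sov (X : Dat) where
  ι : Type
  fin : Finite ι
  e : ι → Matrix (Fin X.m) (Fin X.m) ℝ
  rat : ∀ l i j, ∃ q : ℚ, e l i j = (q : ℝ)
  span_e : Submodule.span ℝ (Set.range e) = X.n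
  lin : LinearIndependent ℝ e
  rt : ι → (Fin X.m → ℝ) → ℝ
  wt : ∀ l, ∀ c ∈ X.b, lieb (diagonal c) (e l) = rt l c • e l
  pos : ∃ a ∈ X.b, ∀ l, 0 < rt l a
  sep : ∀ a ∈ X.b, (∀ l, rt l a = 0) → a = 0
  nonprop : ∀ l l', l ≠ l' → ∀ r : ℝ, ∃ c ∈ X.b, rt l c ≠ r * rt l' c
  J : Type
  comp : ι → J
  top : J → ι
  comp_top : ∀ l, comp (top (comp l)) = comp l
  climb : ∀ l, l ≠ top (comp l) → ∃ l', l' ≠ l ∧ lieb (e l) (e l') ≠ 0
  scal : ∀ κ : J → ℝ, (∀ j, 0 < κ j) → ∃ S : (Fin X.m → ℝ) → Fin X.m → ℝ,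
    ∀ c ∈ X.b, S c ∈ X.b ∧ ∀ l, rt l (S c) = κ (comp l) * rt l c

theorem emb_iff (X Y : Dat) : Emb X Y ↔ AlgEmb X Y := by
  constructor
  · rintro ⟨T, P, h1, h2, h3, h4⟩
    refine ⟨T.comp X.n.subtype, P.comp X.b.subtype, fun x => (h1 x x.2).1, fun a => (h2 a a.2).1,
      ?_, ?_, ?_, ?_⟩
    · rw [injective_iff_map_eq_zero]
      intro x hx
      exact Subtype.ext ((h1 x x.2).2 hx)
    · rw [injective_iff_map_eq_zero]
      intro x hx
      exact Subtype.ext ((h2 x x.2).2 hx)
    · intro x y
      exact h3 x x.2 y y.2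
    · intro a x
      exact h4 a a.2 x x.2
  · rintro ⟨T, P, h1, h2, h3, h4, h5, h6⟩
    obtain ⟨T', hT⟩ := LinearMap.exists_extend T
    obtain ⟨P', hP⟩ := LinearMap.exists_extend P
    have eT : ∀ (x) (hx : x ∈ X.n), T' x = T ⟨x, hx⟩ := fun x hx => by rw [← hT]; rfl
    have eP : ∀ (x) (hx : x ∈ X.b), P' x = P ⟨x, hx⟩ := fun x hx => by rw [← hP]; rfl
    refine ⟨T', P', ?_, ?_, ?_, ?_⟩
    · intro x hx
      rw [eT x hx]
      refine ⟨h1 _, fun h => ?_⟩
      exact congrArg Subtype.val ((injective_iff_map_eq_zero T).1 h3 _ h)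
    · intro x hx
      rw [eP x hx]
      refine ⟨h2 _, fun h => ?_⟩
      exact congrArg Subtype.val ((injective_iff_map_eq_zero P).1 h4 _ h)
    · intro x hx y hy
      rw [eT x hx, eT y hy]
      have := h5 ⟨x, hx⟩ ⟨y, hy⟩
      rw [← eT _ (X.lie x hx y hy)] at this
      exact this
    · intro a ha x hx
      rw [eT x hx, eP a ha]
      have := h6 ⟨a, ha⟩ ⟨x, hx⟩
      rw [← eT _ (X.stab a ha x hx)] at this
      exact this

theorem sov_iff (X : Dat) : Nonempty X.Sov ↔ Nonempty X.RSplit := by
  classical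
  constructor
  · rintro ⟨h⟩
    have hf := h.fin
    have hne : ∀ l, h.e l ≠ 0 := fun l => h.lin.ne_zero l
    have hadd : ∀ l, ∀ c ∈ X.b, ∀ c' ∈ X.b, h.rt l (c + c') = h.rt l c + h.rt l c' := by
      intro l c hc c' hc'
      have e1 := h.wt l (c + c') (X.b.add_mem hc hc')
      have e2 : lieb (diagonal (c + c')) (h.e l) =
          lieb (diagonal c) (h.e l) + lieb (diagonal c') (h.e l) := by
        have e3 : diagonal (c + c') = diagonal c + diagonal c' := (Matrix.diagonal_add _ _).symm
        rw [lieb, lieb, lieb, e3, add_mul, mul_add]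
        abel
      rw [e2, h.wt l c hc, h.wt l c' hc', ← add_smul] at e1
      exact (smul_left_injective ℝ (hne l) e1).symm
    have hsmul : ∀ l, ∀ (r : ℝ), ∀ c ∈ X.b, h.rt l (r • c) = r * h.rt l c := by
      intro l r c hc
      have e1 := h.wt l (r • c) (X.b.smul_mem r hc)
      have e2 : lieb (diagonal (r • c)) (h.e l) = r • lieb (diagonal c) (h.e l) := by
        rw [lieb, lieb, Matrix.diagonal_smul, Matrix.smul_mul, Matrix.mul_smul, smul_sub]
      rw [e2, h.wt l c hc, smul_smul] at e1
      exact (smul_left_injective ℝ (hne l) e1).symm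
    have hsub : ∀ l, ∀ c ∈ X.b, ∀ c' ∈ X.b, h.rt l (c - c') = h.rt l c - h.rt l c' := by
      intro l c hc c' hc'
      have h1 := hadd l (c - c') (X.b.sub_mem hc hc') c' hc'
      rw [sub_add_cancel] at h1
      linarith
    have hinj : ∀ c ∈ X.b, ∀ c' ∈ X.b, (∀ l, h.rt l c = h.rt l c') → c = c' := by
      intro c hc c' hc' hh
      refine sub_eq_zero.1 (h.sep _ (X.b.sub_mem hc hc') fun l => ?_)
      rw [hsub l c hc c' hc', hh l, sub_self]
    exact ⟨{
      ι := h.ι
      fin := Fintype.ofFinite _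
      dec := Classical.decEq _
      e := h.e
      rat := h.rat
      span_e := h.span_e
      lin := h.lin
      rt := fun l =>
        { toFun := fun c => h.rt l (c : Fin X.m → ℝ)
          map_add' := fun c c' => hadd l c c.2 c' c'.2
          map_smul' := fun r c => hsmul l r c c.2 }
      wt := fun l c => h.wt l c c.2
      pos := by
        obtain ⟨a, ha, hp⟩ := h.pos
        exact ⟨⟨a, ha⟩, hp⟩
      sep := fun a ha => Subtype.ext (h.sep a a.2 ha)
      nonprop := by
        intro l l' hl r he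
        obtain ⟨c, hc, hne⟩ := h.nonprop l l' hl r
        exact hne (LinearMap.congr_fun he ⟨c, hc⟩)
      J := h.J
      comp := h.comp
      top := h.top
      comp_top := h.comp_top
      climb := h.climb
      scal := by
        intro κ hκ
        obtain ⟨S, hS⟩ := h.scal κ hκ
        refine ⟨{ toFun := fun c => ⟨S c, (hS c c.2).1⟩, map_add' := ?_, map_smul' := ?_ }, ?_⟩
        · intro c c'
          refine Subtype.ext (hinj _ (hS _ (c + c').2).1 _ (X.b.add_mem (hS c c.2).1 (hS c' c'.2).1)
            fun l => ?_)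
          show h.rt l (S ((c : Fin X.m → ℝ) + c')) = h.rt l (S c + S c')
          have e1 : h.rt l (S ((c : Fin X.m → ℝ) + c')) =
              κ (h.comp l) * h.rt l ((c : Fin X.m → ℝ) + c') := (hS _ (c + c').2).2 l
          rw [e1, hadd l c c.2 c' c'.2,
            hadd l _ (hS c c.2).1 _ (hS c' c'.2).1, (hS c c.2).2 l, (hS c' c'.2).2 l]
          ring
        · intro r c
          refine Subtype.ext (hinj _ (hS _ (r • c).2).1 _ (X.b.smul_mem r (hS c c.2).1)
            fun l => ?_)
          show h.rt l (S (r • (c : Fin X.m → ℝ))) = h.rt l (r • S c)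
          have e1 : h.rt l (S (r • (c : Fin X.m → ℝ))) =
              κ (h.comp l) * h.rt l (r • (c : Fin X.m → ℝ)) := (hS _ (r • c).2).2 l
          rw [e1, hsmul l r c c.2,
            hsmul l r _ (hS c c.2).1, (hS c c.2).2 l]
          ring
        · intro l a
          exact (hS a a.2).2 l }⟩
  · rintro ⟨h⟩
    have er : ∀ l (c : Fin X.m → ℝ) (hc : c ∈ X.b),
        (if hc : c ∈ X.b then h.rt l ⟨c, hc⟩ else 0) = h.rt l ⟨c, hc⟩ := fun l c hc => dif_pos hc
    exact ⟨{
      ι := h.ι
      fin := inferInstance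
      e := h.e
      rat := h.rat
      span_e := h.span_e
      lin := h.lin
      rt := fun l c => if hc : c ∈ X.b then h.rt l ⟨c, hc⟩ else 0
      wt := fun l c hc => by rw [er l c hc]; exact h.wt l ⟨c, hc⟩
      pos := by
        obtain ⟨a, hp⟩ := h.pos
        exact ⟨a, a.2, fun l => by rw [er l a a.2]; exact hp l⟩
      sep := by
        intro a ha hz
        have := h.sep ⟨a, ha⟩ fun l => by rw [← er l a ha]; exact hz l
        exact congrArg Subtype.val this
      nonprop := by
        intro l l' hl r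
        by_contra hc
        push Not at hc
        refine h.nonprop l l' hl r (LinearMap.ext fun c => ?_)
        have := hc c c.2
        rw [er l c c.2, er l' c c.2] at this
        exact this
      J := h.J
      comp := h.comp
      top := h.top
      comp_top := h.comp_top
      climb := h.climb
      scal := by
        intro κ hκ
        obtain ⟨S, hS⟩ := h.scal κ hκ
        refine ⟨fun c => if hc : c ∈ X.b then (S ⟨c, hc⟩ : Fin X.m → ℝ) else 0, fun c hc => ?_⟩
        have e1 : (fun c => if hc : c ∈ X.b then (S ⟨c, hc⟩ : Fin X.m → ℝ) else 0) c =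
            (S ⟨c, hc⟩ : Fin X.m → ℝ) := dif_pos hc
        rw [e1]
        refine ⟨(S ⟨c, hc⟩).2, fun l => ?_⟩
        rw [er l _ (S ⟨c, hc⟩).2, er l c hc]
        exact hS l ⟨c, hc⟩ }⟩

end Pool.Agent.QSX
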