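import Pool.Agent.QSX.StmtsF

set_option autoImplicit false

/-! # Products of data with rational root vectors -/

namespace Pool.Agent.QSX.H10

open Matrix Finset

variable (X Y : Dat)

/-- first part of a diagonal -/
def pr1 : (X.prod Y).b →ₗ[ℝ] X.b :=
  LinearMap.codRestrict X.b
    ((LinearMap.funLeft ℝ ℝ (Fin.castAdd Y.m)).comp (X.prod Y).b.subtype) (fun c => c.2.1)

/-- second part of a diagonal -/
def pr2 : (X.prod Y).b →ₗ[ℝ] Y.b :=
  LinearMap.codRestrict Y.b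
    ((LinearMap.funLeft ℝ ℝ (Fin.natAdd X.m)).comp (X.prod Y).b.subtype) (fun c => c.2.2)

theorem pr1_apply (c : (X.prod Y).b) (i : Fin X.m) :
    (pr1 X Y c : Fin X.m → ℝ) i = c.1 (Fin.castAdd Y.m i) := rfl

theorem pr2_apply (c : (X.prod Y).b) (i : Fin Y.m) :
    (pr2 X Y c : Fin Y.m → ℝ) i = c.1 (Fin.natAdd X.m i) := rfl

/-- the diagonal with two given parts -/
def ap (a : X.b) (a' : Y.b) : (X.prod Y).b :=
  ⟨(Fin.append (a : Fin X.m → ℝ) (a' : Fin Y.m → ℝ) : Fin (X.m + Y.m) → ℝ), by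
    refine ⟨?_, ?_⟩
    · show LinearMap.funLeft ℝ ℝ (Fin.castAdd Y.m)
        (Fin.append (a : Fin X.m → ℝ) (a' : Fin Y.m → ℝ)) ∈ X.b
      have h : LinearMap.funLeft ℝ ℝ (Fin.castAdd Y.m)
          (Fin.append (a : Fin X.m → ℝ) (a' : Fin Y.m → ℝ)) = (a : Fin X.m → ℝ) := by
        funext i
        rw [LinearMap.funLeft_apply, Fin.append_left]
      rw [h]; exact a.2
    · show LinearMap.funLeft ℝ ℝ (Fin.natAdd X.m)
        (Fin.append (a : Fin X.m → ℝ) (a' : Fin Y.m → ℝ)) ∈ Y.b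
      have h : LinearMap.funLeft ℝ ℝ (Fin.natAdd X.m)
          (Fin.append (a : Fin X.m → ℝ) (a' : Fin Y.m → ℝ)) = (a' : Fin Y.m → ℝ) := by
        funext i
        rw [LinearMap.funLeft_apply, Fin.append_right]
      rw [h]; exact a'.2⟩

theorem pr1_ap (a : X.b) (a' : Y.b) : pr1 X Y (ap X Y a a') = a := by
  apply Subtype.ext; funext i
  rw [pr1_apply]
  exact Fin.append_left _ _ i

theorem pr2_ap (a : X.b) (a' : Y.b) : pr2 X Y (ap X Y a a') = a' := by
  apply Subtype.ext; funext i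
  rw [pr2_apply]
  exact Fin.append_right _ _ i

theorem append_pr (c : (X.prod Y).b) :
    c.1 = Fin.append (pr1 X Y c : Fin X.m → ℝ) (pr2 X Y c : Fin Y.m → ℝ) := by
  funext i
  refine Fin.addCases (fun i => ?_) (fun i => ?_) i
  · exact (Fin.append_left (pr1 X Y c : Fin X.m → ℝ) (pr2 X Y c : Fin Y.m → ℝ) i).symm
  · exact (Fin.append_right (pr1 X Y c : Fin X.m → ℝ) (pr2 X Y c : Fin Y.m → ℝ) i).symm

theorem ap_pr (c : (X.prod Y).b) : ap X Y (pr1 X Y c) (pr2 X Y c) = c :=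
  Subtype.ext (append_pr X Y c).symm

theorem pr_ext {c d : (X.prod Y).b} (h1 : pr1 X Y c = pr1 X Y d) (h2 : pr2 X Y c = pr2 X Y d) :
    c = d := by
  rw [← ap_pr X Y c, ← ap_pr X Y d, h1, h2]

theorem ap_add (a b : X.b) (a' b' : Y.b) : ap X Y (a + b) (a' + b') = ap X Y a a' + ap X Y b b' := by
  apply pr_ext
  · rw [map_add, pr1_ap, pr1_ap, pr1_ap]
  · rw [map_add, pr2_ap, pr2_ap, pr2_ap]

theorem ap_smul (r : ℝ) (a : X.b) (a' : Y.b) : ap X Y (r • a) (r • a') = r • ap X Y a a' := by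
  apply pr_ext
  · rw [map_smul, pr1_ap, pr1_ap]
  · rw [map_smul, pr2_ap, pr2_ap]

/-- the scaling map of the product -/
def apS (S : X.b →ₗ[ℝ] X.b) (S' : Y.b →ₗ[ℝ] Y.b) : (X.prod Y).b →ₗ[ℝ] (X.prod Y).b where
  toFun c := ap X Y (S (pr1 X Y c)) (S' (pr2 X Y c))
  map_add' c d := by rw [map_add, map_add, map_add, map_add, ap_add]
  map_smul' r c := by
    rw [map_smul, map_smul, map_smul, map_smul, ap_smul]; rfl

theorem diag_prod (c : (X.prod Y).b) : (diagonal c.1 :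
    Matrix (Fin (X.m + Y.m)) (Fin (X.m + Y.m)) ℝ) =
    bd (diagonal (pr1 X Y c : Fin X.m → ℝ)) (diagonal (pr2 X Y c : Fin Y.m → ℝ)) := by
  rw [bd_diagonal]
  exact congrArg diagonal (append_pr X Y c)

theorem br_prod {x x' : Matrix (Fin X.m) (Fin X.m) ℝ} {y y' : Matrix (Fin Y.m) (Fin Y.m) ℝ}
    (h : bd x y * bd x' y' - bd x' y' * bd x y = 0) :
    x * x' - x' * x = 0 ∧ y * y' - y' * y = 0 := by
  rw [bd_mul, bd_mul, bd_sub, ← bd_zero] at h
  exact bd_inj h

theorem wt_prod1 (c : (X.prod Y).b) (x : Matrix (Fin X.m) (Fin X.m) ℝ) (r : ℝ)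
    (h : diagonal (pr1 X Y c : Fin X.m → ℝ) * x - x * diagonal (pr1 X Y c : Fin X.m → ℝ) = r • x) :
    (diagonal c.1 : Matrix (Fin (X.m + Y.m)) (Fin (X.m + Y.m)) ℝ) *
      bd x (0 : Matrix (Fin Y.m) (Fin Y.m) ℝ) - bd x (0 : Matrix (Fin Y.m) (Fin Y.m) ℝ) *
      (diagonal c.1 : Matrix (Fin (X.m + Y.m)) (Fin (X.m + Y.m)) ℝ) = r • bd x 0 := by
  rw [diag_prod, bd_mul, bd_mul, bd_sub, h, mul_zero, zero_mul, sub_zero, bd_smul, smul_zero]

theorem wt_prod2 (c : (X.prod Y).b) (y : Matrix (Fin Y.m) (Fin Y.m) ℝ) (r : ℝ)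
    (h : diagonal (pr2 X Y c : Fin Y.m → ℝ) * y - y * diagonal (pr2 X Y c : Fin Y.m → ℝ) = r • y) :
    (diagonal c.1 : Matrix (Fin (X.m + Y.m)) (Fin (X.m + Y.m)) ℝ) *
      bd (0 : Matrix (Fin X.m) (Fin X.m) ℝ) y - bd (0 : Matrix (Fin X.m) (Fin X.m) ℝ) y *
      (diagonal c.1 : Matrix (Fin (X.m + Y.m)) (Fin (X.m + Y.m)) ℝ) = r • bd 0 y := by
  rw [diag_prod, bd_mul, bd_mul, bd_sub, h, mul_zero, zero_mul, sub_zero, bd_smul, smul_zero]

theorem bd_sum {α : Type} (s : Finset α) {m m' : ℕ} (f : α → Matrix (Fin m) (Fin m) ℝ)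
    (g : α → Matrix (Fin m') (Fin m') ℝ) :
    ∑ i ∈ s, bd (f i) (g i) = bd (∑ i ∈ s, f i) (∑ i ∈ s, g i) := by
  classical
  induction s using Finset.induction_on with
  | empty => simp [bd_zero]
  | insert a s ha ih => rw [Finset.sum_insert ha, Finset.sum_insert ha, Finset.sum_insert ha, ih,
      bd_add]

theorem lin_prod {α β : Type} [Fintype α] [Fintype β] {m m' : ℕ}
    {f : α → Matrix (Fin m) (Fin m) ℝ} {g : β → Matrix (Fin m') (Fin m') ℝ}
    (hf : LinearIndependent ℝ f) (hg : LinearIndependent ℝ g) :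
    LinearIndependent ℝ (Sum.elim (fun l => bd (f l) 0) (fun l => bd 0 (g l)) :
      α ⊕ β → Matrix (Fin (m + m')) (Fin (m + m')) ℝ) := by
  rw [Fintype.linearIndependent_iff]
  intro c hc
  rw [Fintype.sum_sum_type] at hc
  simp only [Sum.elim_inl, Sum.elim_inr] at hc
  have e1 : ∑ l, c (Sum.inl l) • bd (f l) (0 : Matrix (Fin m') (Fin m') ℝ) =
      bd (∑ l, c (Sum.inl l) • f l) (0 : Matrix (Fin m') (Fin m') ℝ) := by
    have := bd_sum Finset.univ (fun l => c (Sum.inl l) • f l)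
      (fun _ : α => (0 : Matrix (Fin m') (Fin m') ℝ))
    rw [Finset.sum_const_zero] at this
    rw [← this]
    refine Finset.sum_congr rfl fun l _ => ?_
    rw [bd_smul, smul_zero]
  have e2 : ∑ l, c (Sum.inr l) • bd (0 : Matrix (Fin m) (Fin m) ℝ) (g l) =
      bd (0 : Matrix (Fin m) (Fin m) ℝ) (∑ l, c (Sum.inr l) • g l) := by
    have := bd_sum Finset.univ (fun _ : β => (0 : Matrix (Fin m) (Fin m) ℝ))
      (fun l => c (Sum.inr l) • g l)
    rw [Finset.sum_const_zero] at this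
    rw [← this]
    refine Finset.sum_congr rfl fun l _ => ?_
    rw [bd_smul, smul_zero]
  rw [e1, e2, bd_add, add_zero, zero_add, ← bd_zero] at hc
  obtain ⟨h1, h2⟩ := bd_inj hc
  rintro (l | l)
  · exact (Fintype.linearIndependent_iff.1 hf) (fun l => c (Sum.inl l)) h1 l
  · exact (Fintype.linearIndependent_iff.1 hg) (fun l => c (Sum.inr l)) h2 l

theorem rpr : ∀ X Y : Dat, Nonempty X.RSplit → Nonempty Y.RSplit →
    Nonempty (X.prod Y).RSplit := by
  rintro X Y ⟨hX⟩ ⟨hY⟩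
  let e : hX.ι ⊕ hY.ι → Matrix (Fin (X.m + Y.m)) (Fin (X.m + Y.m)) ℝ :=
    Sum.elim (fun l => bd (hX.e l) 0) (fun l => bd 0 (hY.e l))
  let rt : hX.ι ⊕ hY.ι → (X.prod Y).b →ₗ[ℝ] ℝ :=
    Sum.elim (fun l => (hX.rt l).comp (pr1 X Y)) (fun l => (hY.rt l).comp (pr2 X Y))
  obtain ⟨a₁, ha₁⟩ := hX.pos
  obtain ⟨a₂, ha₂⟩ := hY.pos
  refine ⟨{
    ι := hX.ι ⊕ hY.ι
    fin := inferInstance
    dec := inferInstance
    e := e
    rat := ?_
    span_e := ?_
    lin := ?_
    rt := rt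
    wt := ?_
    pos := ⟨ap X Y a₁ a₂, ?_⟩
    sep := ?_
    nonprop := ?_
    J := hX.J ⊕ hY.J
    comp := Sum.map hX.comp hY.comp
    top := Sum.map hX.top hY.top
    comp_top := ?_
    climb := ?_
    scal := ?_ }⟩
  · -- rat
    have key : ∀ (x : Matrix (Fin X.m) (Fin X.m) ℝ) (y : Matrix (Fin Y.m) (Fin Y.m) ℝ),
        (∀ i j, ∃ q : ℚ, x i j = (q : ℝ)) → (∀ i j, ∃ q : ℚ, y i j = (q : ℝ)) →
        ∀ i j, ∃ q : ℚ, bd x y i j = (q : ℝ) := by
      intro x y hx hy i j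
      refine Fin.addCases (fun i => ?_) (fun i => ?_) i <;>
        refine Fin.addCases (fun j => ?_) (fun j => ?_) j
      · rw [bd_cc]; exact hx i j
      · rw [bd_cn]; exact ⟨0, by simp⟩
      · rw [bd_nc]; exact ⟨0, by simp⟩
      · rw [bd_nn]; exact hy i j
    rintro (l | l)
    · exact key _ _ (hX.rat l) (fun _ _ => ⟨0, by simp⟩)
    · exact key _ _ (fun _ _ => ⟨0, by simp⟩) (hY.rat l)
  · -- span_e
    apply le_antisymm
    · rw [Submodule.span_le]
      rintro _ ⟨l | l, rfl⟩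
      · refine ⟨hX.e l, ?_, 0, Y.n.zero_mem, rfl⟩
        rw [← hX.span_e]; exact Submodule.subset_span ⟨l, rfl⟩
      · refine ⟨0, X.n.zero_mem, hY.e l, ?_, rfl⟩
        rw [← hY.span_e]; exact Submodule.subset_span ⟨l, rfl⟩
    · rintro _ ⟨x, hx, y, hy, rfl⟩
      have h1 : ∀ x ∈ Submodule.span ℝ (Set.range hX.e),
          bd x (0 : Matrix (Fin Y.m) (Fin Y.m) ℝ) ∈ Submodule.span ℝ (Set.range e) := by
        intro x hx
        induction hx using Submodule.span_induction with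
        | mem x hx =>
          obtain ⟨l, rfl⟩ := hx
          exact Submodule.subset_span ⟨Sum.inl l, rfl⟩
        | zero => rw [bd_zero]; exact Submodule.zero_mem _
        | add x y _ _ hx hy =>
          have : bd (x + y) (0 : Matrix (Fin Y.m) (Fin Y.m) ℝ) = bd x 0 + bd y 0 := by
            rw [bd_add, add_zero]
          rw [this]; exact Submodule.add_mem _ hx hy
        | smul r x _ hx =>
          have : bd (r • x) (0 : Matrix (Fin Y.m) (Fin Y.m) ℝ) = r • bd x 0 := by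
            rw [bd_smul, smul_zero]
          rw [this]; exact Submodule.smul_mem _ _ hx
      have h2 : ∀ y ∈ Submodule.span ℝ (Set.range hY.e),
          bd (0 : Matrix (Fin X.m) (Fin X.m) ℝ) y ∈ Submodule.span ℝ (Set.range e) := by
        intro x hx
        induction hx using Submodule.span_induction with
        | mem x hx =>
          obtain ⟨l, rfl⟩ := hx
          exact Submodule.subset_span ⟨Sum.inr l, rfl⟩
        | zero => rw [bd_zero]; exact Submodule.zero_mem _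
        | add x y _ _ hx hy =>
          have : bd (0 : Matrix (Fin X.m) (Fin X.m) ℝ) (x + y) = bd 0 x + bd 0 y := by
            rw [bd_add, add_zero]
          rw [this]; exact Submodule.add_mem _ hx hy
        | smul r x _ hx =>
          have : bd (0 : Matrix (Fin X.m) (Fin X.m) ℝ) (r • x) = r • bd 0 x := by
            rw [bd_smul, smul_zero]
          rw [this]; exact Submodule.smul_mem _ _ hx
      rw [← hX.span_e] at hx
      rw [← hY.span_e] at hy
      have : bd x y = bd x 0 + bd 0 y := by rw [bd_add, add_zero, zero_add]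
      rw [this]
      exact Submodule.add_mem _ (h1 x hx) (h2 y hy)
  · -- lin
    exact lin_prod hX.lin hY.lin
  · -- wt
    rintro (l | l) c
    · exact wt_prod1 X Y c (hX.e l) (hX.rt l (pr1 X Y c)) (hX.wt l (pr1 X Y c))
    · exact wt_prod2 X Y c (hY.e l) (hY.rt l (pr2 X Y c)) (hY.wt l (pr2 X Y c))
  · -- pos
    rintro (l | l)
    · show 0 < hX.rt l (pr1 X Y (ap X Y a₁ a₂))
      rw [pr1_ap]; exact ha₁ l
    · show 0 < hY.rt l (pr2 X Y (ap X Y a₁ a₂))
      rw [pr2_ap]; exact ha₂ l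
  · -- sep
    intro a ha
    have h1 : pr1 X Y a = 0 := hX.sep _ fun l => ha (Sum.inl l)
    have h2 : pr2 X Y a = 0 := hY.sep _ fun l => ha (Sum.inr l)
    have h3 := ap_smul X Y 0 0 0
    rw [smul_zero, smul_zero, zero_smul] at h3
    rw [← ap_pr X Y a, h1, h2, h3]
  · -- nonprop
    rintro (l | l) (l' | l') hl c h
    · refine hX.nonprop l l' (fun h' => hl (by rw [h'])) c ?_
      apply LinearMap.ext; intro a
      have := congrArg (fun f => f (ap X Y a 0)) h
      change hX.rt l (pr1 X Y (ap X Y a 0)) = c * hX.rt l' (pr1 X Y (ap X Y a 0)) at this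
      rw [pr1_ap] at this
      exact this
    · have := congrArg (fun f => f (ap X Y a₁ 0)) h
      change hX.rt l (pr1 X Y (ap X Y a₁ 0)) = c * hY.rt l' (pr2 X Y (ap X Y a₁ 0)) at this
      rw [pr1_ap, pr2_ap, map_zero, mul_zero] at this
      exact absurd this (ha₁ l).ne'
    · have := congrArg (fun f => f (ap X Y 0 a₂)) h
      change hY.rt l (pr2 X Y (ap X Y 0 a₂)) = c * hX.rt l' (pr1 X Y (ap X Y 0 a₂)) at this
      rw [pr1_ap, pr2_ap, map_zero, mul_zero] at this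
      exact absurd this (ha₂ l).ne'
    · refine hY.nonprop l l' (fun h' => hl (by rw [h'])) c ?_
      apply LinearMap.ext; intro a
      have := congrArg (fun f => f (ap X Y 0 a)) h
      change hY.rt l (pr2 X Y (ap X Y 0 a)) = c * hY.rt l' (pr2 X Y (ap X Y 0 a)) at this
      rw [pr2_ap] at this
      exact this
  · -- comp_top
    rintro (l | l)
    · show Sum.inl (hX.comp (hX.top (hX.comp l))) = Sum.inl (hX.comp l)
      rw [hX.comp_top]
    · show Sum.inr (hY.comp (hY.top (hY.comp l))) = Sum.inr (hY.comp l)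
      rw [hY.comp_top]
  · -- climb
    rintro (l | l) hl
    · obtain ⟨l', h1, h2⟩ := hX.climb l (fun h => hl (congrArg Sum.inl h))
      exact ⟨Sum.inl l', fun h => h1 (Sum.inl_injective h), fun h => h2 (br_prod X Y h).1⟩
    · obtain ⟨l', h1, h2⟩ := hY.climb l (fun h => hl (congrArg Sum.inr h))
      exact ⟨Sum.inr l', fun h => h1 (Sum.inr_injective h), fun h => h2 (br_prod X Y h).2⟩
  · -- scal
    intro κ hκ
    obtain ⟨S, hS⟩ := hX.scal (fun j => κ (Sum.inl j)) (fun j => hκ _)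
    obtain ⟨S', hS'⟩ := hY.scal (fun j => κ (Sum.inr j)) (fun j => hκ _)
    refine ⟨apS X Y S S', ?_⟩
    rintro (l | l) a
    · show hX.rt l (pr1 X Y (ap X Y (S (pr1 X Y a)) (S' (pr2 X Y a)))) = _
      rw [pr1_ap, hS]; rfl
    · show hY.rt l (pr2 X Y (ap X Y (S (pr1 X Y a)) (S' (pr2 X Y a)))) = _
      rw [pr2_ap, hS']; rfl

end Pool.Agent.QSX.H10
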