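import Pool.Agent.QSX.StmtsF
import Pool.Agent.Helper66_QSX.SLN

set_option autoImplicit false

/-! # The datum of the special linear group has rational root vectors (after helper66) -/

namespace Pool.Agent.QSX.H10

open Matrix Finset Pool.Agent.QSX.H66

lemma ee_rat {k : ℕ} (l : IX k) (i j : Fin k) : ∃ q : ℚ, ee l i j = (q : ℝ) := by
  by_cases h : l.1.1 = i ∧ l.1.2 = j
  · exact ⟨1, by rw [ee, Matrix.single_apply, if_pos h]; norm_num⟩
  · exact ⟨0, by rw [ee, Matrix.single_apply, if_neg h]; norm_num⟩

/-- the datum of `SL_k` is split, with rational root vectors -/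
theorem rsl : ∀ k : ℕ, 2 ≤ k → Nonempty (datSL k).RSplit := by
  intro k hk
  have h0 : 0 < k := by omega
  let z : Fin k := ⟨0, h0⟩
  let w : Fin k := ⟨k - 1, by omega⟩
  have hzw : z < w := by
    rw [Fin.lt_def]
    show 0 < k - 1
    omega
  refine ⟨{
    ι := IX k
    fin := inferInstance
    dec := inferInstance
    e := ee
    rat := fun l i j => ee_rat l i j
    span_e := span_ee k
    lin := lin_ee k
    rt := rr
    wt := fun l c => wt_ee l c.1
    pos := ?_
    sep := ?_
    nonprop := fun l l' hl c => nonprop_rr hk l l' hl c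
    J := Unit
    comp := fun _ => ()
    top := fun _ => ⟨(z, w), hzw⟩
    comp_top := fun _ => rfl
    climb := ?_
    scal := ?_ }⟩
  · refine ⟨cen hk (fun i => -(i : ℝ)), ?_⟩
    intro l
    rw [rr_cen]
    have h1 : ((l.1.1 : ℕ) : ℝ) < ((l.1.2 : ℕ) : ℝ) := by
      exact_mod_cast (Fin.lt_def.mp l.2)
    linarith
  · intro a ha
    have h1 : ∀ i : Fin k, a.1 i = a.1 z := by
      intro i
      rcases eq_or_ne i z with h | h
      · rw [h]
      · have h2 : z < i := by
          rw [Fin.lt_def]
          show 0 < (i : ℕ)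
          rcases Nat.eq_zero_or_pos (i : ℕ) with h3 | h3
          · exact absurd (Fin.ext h3) h
          · exact h3
        have h3 := ha ⟨(z, i), h2⟩
        rw [rr_apply] at h3
        have h4 : a.1 z - a.1 i = 0 := h3
        linarith
    have h2 : ∑ i : Fin k, a.1 i = 0 := a.2
    rw [Finset.sum_congr rfl (fun i _ => h1 i), Finset.sum_const, Finset.card_univ,
      Fintype.card_fin, nsmul_eq_mul] at h2
    have h3 : (k : ℝ) ≠ 0 := by exact_mod_cast h0.ne'
    have h4 : a.1 z = 0 := by
      rcases mul_eq_zero.mp h2 with h5 | h5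
      · exact absurd h5 h3
      · exact h5
    apply Subtype.ext
    funext i
    exact (h1 i).trans h4
  · intro l hl
    by_cases hj : l.1.2 = w
    · have hi : z < l.1.1 := by
        rw [Fin.lt_def]
        show 0 < (l.1.1 : ℕ)
        rcases Nat.eq_zero_or_pos (l.1.1 : ℕ) with h3 | h3
        · exfalso
          apply hl
          apply Subtype.ext
          exact Prod.ext (Fin.ext h3) hj
        · exact h3
      refine ⟨⟨(z, l.1.1), hi⟩, ?_, ?_⟩
      · intro h
        have h1 : z = l.1.1 := congrArg (fun t : IX k => t.1.1) h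
        exact (ne_of_lt hi) h1
      · have e1 : ee l * ee (⟨(z, l.1.1), hi⟩ : IX k) = 0 := by
          apply ee_mul_ne
          exact (ne_of_lt (hi.trans l.2)).symm
        have e2 : ee (⟨(z, l.1.1), hi⟩ : IX k) * ee l = Matrix.single z l.1.2 1 := by
          rw [ee, ee, Matrix.single_mul_single_same, one_mul]
        intro h
        have h' : ee l * ee (⟨(z, l.1.1), hi⟩ : IX k) - ee (⟨(z, l.1.1), hi⟩ : IX k) * ee l = 0 := h
        rw [e1, e2, zero_sub, neg_eq_zero] at h'
        have h1 := congrFun (congrFun h' z) l.1.2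
        rw [Matrix.single_apply, if_pos ⟨rfl, rfl⟩] at h1
        exact one_ne_zero h1
    · have hj' : l.1.2 < w := by
        rw [Fin.lt_def]
        show (l.1.2 : ℕ) < k - 1
        have h1 := l.1.2.isLt
        rcases Nat.lt_or_ge (l.1.2 : ℕ) (k - 1) with h2 | h2
        · exact h2
        · exfalso
          apply hj
          apply Fin.ext
          show (l.1.2 : ℕ) = k - 1
          omega
      refine ⟨⟨(l.1.2, w), hj'⟩, ?_, ?_⟩
      · intro h
        have h1 : l.1.2 = l.1.1 := congrArg (fun t : IX k => t.1.1) h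
        exact (ne_of_lt l.2) h1.symm
      · have e1 : ee (⟨(l.1.2, w), hj'⟩ : IX k) * ee l = 0 := by
          apply ee_mul_ne
          exact (ne_of_lt (l.2.trans hj')).symm
        have e2 : ee l * ee (⟨(l.1.2, w), hj'⟩ : IX k) = Matrix.single l.1.1 w 1 := by
          rw [ee, ee, Matrix.single_mul_single_same, one_mul]
        intro h
        have h' : ee l * ee (⟨(l.1.2, w), hj'⟩ : IX k) - ee (⟨(l.1.2, w), hj'⟩ : IX k) * ee l = 0 := h
        rw [e1, e2, sub_zero] at h'
        have h1 := congrFun (congrFun h' l.1.1) w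
        rw [Matrix.single_apply, if_pos ⟨rfl, rfl⟩] at h1
        exact one_ne_zero h1
  · intro κ _
    refine ⟨κ () • LinearMap.id, ?_⟩
    intro l a
    rw [LinearMap.smul_apply, LinearMap.id_apply, map_smul, smul_eq_mul]

end Pool.Agent.QSX.H10
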